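import Pool.Agent.H76.GX.ACL

/-!
# The retraction to the core
-/

set_option autoImplicit false
set_option linter.unusedVariables false

namespace Pool.Agent.H76.GX

open Classical

/-- Some iterate of a map of a finite set is idempotent. -/
theorem exists_idem {X : Type} [Finite X] (f : X → X) : ∃ n : ℕ, 1 ≤ n ∧
    ∀ x, f^[n] (f^[n] x) = f^[n] x := by
  obtain ⟨i, j, hij, he⟩ : ∃ i j : ℕ, i < j ∧ f^[i] = f^[j] := by
    obtain ⟨i, j, hne, he⟩ := Finite.exists_ne_map_eq_of_infinite (fun n : ℕ => f^[n])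
    rcases lt_or_gt_of_ne hne with h | h
    · exact ⟨i, j, h, he⟩
    · exact ⟨j, i, h, he.symm⟩
  obtain ⟨d, rfl⟩ : ∃ d, j = i + d := ⟨j - i, by omega⟩
  have hd : 1 ≤ d := by omega
  have h1 : ∀ m, i ≤ m → f^[m + d] = f^[m] := by
    intro m hm
    obtain ⟨t, rfl⟩ : ∃ t, m = t + i := ⟨m - i, by omega⟩
    have e1 : t + i + d = t + (i + d) := by omega
    rw [e1, Function.iterate_add f t (i + d), ← he, ← Function.iterate_add]
  have h2 : ∀ t m, i ≤ m → f^[m + t * d] = f^[m] := by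
    intro t
    induction t with
    | zero => intro m _; simp
    | succ t ih =>
      intro m hm
      have e1 : m + (t + 1) * d = (m + t * d) + d := by ring
      rw [e1, h1 _ (by omega), ih m hm]
  refine ⟨(i + 1) * d, Nat.mul_pos (by omega) (by omega), fun x => ?_⟩
  have h3 := h2 (i + 1) ((i + 1) * d) (by
    have : (i + 1) * 1 ≤ (i + 1) * d := Nat.mul_le_mul_left _ hd
    omega)
  have h4 := congrFun h3 x
  rw [Function.iterate_add_apply] at h4
  exact h4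

theorem cor_main : T_COR := by
  intro k X 𝓛 _ rx R l₀ hB
  have hfin : ∀ s : Set X, s.Finite := fun s => Set.toFinite s
  let A : (X → X) → Finset (Fin k) → Set X := fun ε e => {x | ∃ p, R l₀ p ∧ rx e (ε p) = x}
  let S : Set (X → X) := {ε | Nt rx R l₀ ε ∧ ∀ p, R l₀ p → ε (ε p) = ε p}
  have hS : S.Nonempty := ⟨fun p => p, ⟨fun l p hp => hp, fun e p p' _ _ h => h⟩, fun p _ => rfl⟩
  obtain ⟨ε, hεS, hmin⟩ := Set.exists_min_image S
    (fun ε => ∑ e : Finset (Fin k), (A ε e).ncard) (Set.toFinite S) hS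
  obtain ⟨hε, hid⟩ := hεS
  refine ⟨ε, hε, hid, ?_⟩
  intro θ hθ
  -- the composition
  let ψ : X → X := fun p => θ (ε p)
  have hψ : Nt rx R l₀ ψ := by
    constructor
    · intro l p hp
      exact (hθ.rel l (ε p) ⟨hε.rel l p hp, hid p (hB.base l p hp)⟩).1
    · intro e p p' hp hp' hpp
      exact hθ.nat e _ _ ⟨hε.rel _ p hp, hid p hp⟩ ⟨hε.rel _ p' hp', hid p' hp'⟩
        (hε.nat e p p' hp hp' hpp)
  obtain ⟨n, hn, hidem⟩ := exists_idem ψ
  have hψn : Nt rx R l₀ (ψ^[n]) := nt_iterate hψ n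
  have hψS : ψ^[n] ∈ S := ⟨hψn, fun p _ => hidem p⟩
  have hle := hmin _ hψS
  -- values of the iterate
  have hval : ∀ p, R l₀ p → ∃ c, (R l₀ c ∧ ε c = c) ∧ ψ^[n] p = θ c := by
    intro p hp
    obtain ⟨m, rfl⟩ : ∃ m, n = m + 1 := ⟨n - 1, by omega⟩
    have h1 : R l₀ (ψ^[m] p) := (nt_iterate hψ m).rel l₀ p hp
    refine ⟨ε (ψ^[m] p), ⟨hε.rel _ _ h1, hid _ h1⟩, ?_⟩
    rw [Function.iterate_succ_apply']
  have hsub : ∀ e, A (ψ^[n]) e ⊆ A ε e := by
    rintro e x ⟨p, hp, rfl⟩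
    obtain ⟨c, hc, h1⟩ := hval p hp
    obtain ⟨h2, h3⟩ := hθ.rel l₀ c hc
    exact ⟨θ c, h2, by rw [h3, h1]⟩
  have heq : ∀ e, A (ψ^[n]) e = A ε e := by
    intro e
    by_contra hne
    have hlt : (A (ψ^[n]) e).ncard < (A ε e).ncard :=
      Set.ncard_lt_ncard (lt_of_le_of_ne (hsub e) hne) (hfin _)
    have : ∑ e : Finset (Fin k), (A (ψ^[n]) e).ncard < ∑ e : Finset (Fin k), (A ε e).ncard :=
      Finset.sum_lt_sum (fun e _ => Set.ncard_le_ncard (hsub e) (hfin _))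
        ⟨e, Finset.mem_univ e, hlt⟩
    omega
  -- injectivity
  intro e p p' hp hp' hpp
  have hmem : ∀ c, (R l₀ c ∧ ε c = c) → rx e c ∈ A ε e := fun c hc => ⟨c, hc.1, by rw [hc.2]⟩
  have hrep : ∀ x : A ε e, ∃ c, (R l₀ c ∧ ε c = c) ∧ rx e c = x.1 := by
    rintro ⟨x, q, hq, rfl⟩
    exact ⟨ε q, ⟨hε.rel _ q hq, hid q hq⟩, rfl⟩
  choose rep hrep1 hrep2 using hrep
  let g : A ε e → A ε e := fun x => ⟨rx e (θ (rep x)), hmem _ (hθ.rel l₀ _ (hrep1 x))⟩
  have hg : ∀ c (hc : R l₀ c ∧ ε c = c), g ⟨rx e c, hmem c hc⟩ =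
      ⟨rx e (θ c), hmem _ (hθ.rel l₀ c hc)⟩ := by
    intro c hc
    apply Subtype.ext
    exact hθ.nat e _ _ (hrep1 _) hc (hrep2 _)
  have hsurj : Function.Surjective g := by
    rintro ⟨x, hx⟩
    have hx2 : x ∈ A (ψ^[n]) e := by
      rw [heq e]
      exact hx
    obtain ⟨q, hq, hqx⟩ := hx2
    obtain ⟨c, hc, h1⟩ := hval q hq
    refine ⟨⟨rx e c, hmem c hc⟩, ?_⟩
    rw [hg c hc]
    apply Subtype.ext
    change rx e (θ c) = x
    rw [← h1, hqx]
  have hinj : Function.Injective g := Finite.injective_iff_surjective.2 hsurj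
  have h5 : g ⟨rx e p, hmem p hp⟩ = g ⟨rx e p', hmem p' hp'⟩ := by
    rw [hg p hp, hg p' hp']
    exact Subtype.ext hpp
  exact congrArg Subtype.val (hinj h5)

end Pool.Agent.H76.GX
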