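import Pool.Agent.H76.GX.Abs

/-!
# Ranks from distances
-/

set_option autoImplicit false
set_option linter.unusedVariables false

namespace Pool.Agent.H76.GX

open Classical

noncomputable section

variable {k : ℕ} {C : Type}

/-- the critical sets -/
def crit (D : Finset (Fin k) → Finset (Fin k) → C → ℕ) (J f : Finset (Fin k)) (c : C) :
    Finset (Finset (Fin k)) :=
  Finset.univ.filter fun h => J ⊆ h ∧ h ⊆ f ∧ D J h c = D J f c ∧
    ∀ h', J ⊆ h' → h' ⊂ h → D J h' c ≠ D J f c

/-- the rank -/
def rkD (B : ℕ) (D : Finset (Fin k) → Finset (Fin k) → C → ℕ) (J f : Finset (Fin k)) (c : C) : ℕ :=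
  if D J f c = B then 0 else
    (B - D J f c) * (Fintype.card (Finset (Fin k)) + 1) + (crit D J f c).card

/-- the union of the critical sets -/
def jcD (B : ℕ) (D : Finset (Fin k) → Finset (Fin k) → C → ℕ) (J f : Finset (Fin k)) (c : C) :
    Finset (Fin k) :=
  if D J f c = B then ∅ else (crit D J f c).biUnion id

end

theorem rkd_main : T_RKD := by
  intro k X C 𝓛 rx R l₀ eq dg y ext at' B D hB hA hD
  -- a critical set exists
  have hex : ∀ J f c, J ⊆ f → ∃ h, h ∈ crit D J f c := by
    intro J f c hJf
    let S : Finset (Finset (Fin k)) :=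
      Finset.univ.filter fun h => J ⊆ h ∧ h ⊆ f ∧ D J h c = D J f c
    have hS : S.Nonempty := ⟨f, by simp [S, hJf]⟩
    obtain ⟨h, hh, hmin⟩ := Finset.exists_min_image S Finset.card hS
    refine ⟨h, ?_⟩
    simp only [S, Finset.mem_filter, Finset.mem_univ, true_and] at hh hmin
    simp only [crit, Finset.mem_filter, Finset.mem_univ, true_and]
    refine ⟨hh.1, hh.2.1, hh.2.2, fun h' h1 h2 h3 => ?_⟩
    have h4 := hmin h' ⟨h1, h2.1.trans hh.2.1, h3⟩
    have h5 := Finset.card_lt_card h2
    omega
  have hcm : ∀ J f c h, h ∈ crit D J f c ↔ J ⊆ h ∧ h ⊆ f ∧ D J h c = D J f c ∧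
      ∀ h', J ⊆ h' → h' ⊂ h → D J h' c ≠ D J f c := by
    intro J f c h
    simp [crit]
  have hcard : ∀ J f c, (crit D J f c).card ≤ Fintype.card (Finset (Fin k)) :=
    fun J f c => Finset.card_le_univ _
  have hjs : ∀ J f c, D J f c ≠ B → ∀ h ∈ crit D J f c, h ⊆ jcD B D J f c := by
    intro J f c hd h hh
    rw [jcD, if_neg hd]
    exact Finset.subset_biUnion_of_mem id hh
  have hpos : ∀ J f c, D J f c ≠ B → (Fintype.card (Finset (Fin k)) + 1) ≤ rkD B D J f c := by
    intro J f c hd
    rw [rkD, if_neg hd]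
    have h1 := hD.bd J f c
    have h2 : 1 ≤ B - D J f c := by omega
    have h3 := Nat.mul_le_mul_right (Fintype.card (Finset (Fin k)) + 1) h2
    omega
  refine ⟨rkD B D, jcD B D, ?_, ?_, ?_, ?_, ?_, ?_⟩
  · -- bounded
    refine ⟨B * (Fintype.card (Finset (Fin k)) + 1) + Fintype.card (Finset (Fin k)), ?_⟩
    intro J f c
    rw [rkD]
    split_ifs with h
    · exact Nat.zero_le _
    · exact Nat.add_le_add (Nat.mul_le_mul_right _ (Nat.sub_le _ _)) (hcard J f c)
  · -- invariance
    intro J f c c' hJf hdg hc
    have h1 : ∀ h, J ⊆ h → h ⊆ f → D J h c = D J h c' := fun h hJh hhf =>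
      hD.deq J h c c' hJh (hA.dgm h f c hhf hdg) (hA.mono h f c c' hhf hc)
    have h2 : crit D J f c = crit D J f c' := by
      ext h
      rw [hcm, hcm]
      constructor
      · rintro ⟨a1, a2, a3, a4⟩
        refine ⟨a1, a2, by rw [← h1 h a1 a2, ← h1 f hJf (Finset.Subset.refl _), a3], ?_⟩
        intro h' b1 b2
        rw [← h1 h' b1 (b2.1.trans a2), ← h1 f hJf (Finset.Subset.refl _)]
        exact a4 h' b1 b2
      · rintro ⟨a1, a2, a3, a4⟩
        refine ⟨a1, a2, by rw [h1 h a1 a2, h1 f hJf (Finset.Subset.refl _), a3], ?_⟩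
        intro h' b1 b2
        rw [h1 h' b1 (b2.1.trans a2), h1 f hJf (Finset.Subset.refl _)]
        exact a4 h' b1 b2
    have h3 := h1 f hJf (Finset.Subset.refl _)
    exact ⟨by rw [rkD, rkD, h2, h3], by rw [jcD, jcD, h2, h3]⟩
  · -- k1
    intro J f c p hJf hdg hp hpy h0
    apply hD.d3 J f c p hJf hdg hp hpy
    by_contra hd
    have := hpos J f c hd
    omega
  · -- k2
    intro J f c hJf hdg h0
    have hd : D J f c ≠ B := by
      intro hd
      exact h0 (by rw [rkD, if_pos hd])
    obtain ⟨h, hh⟩ := hex J f c hJf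
    have h1 := hjs J f c hd h hh
    have h2 := (hcm J f c h).1 hh
    constructor
    · have h3 : J ≠ h := by
        intro h3
        subst h3
        have h4 := hD.djj J c (hA.dgm J f c hJf hdg)
        exact hd (by rw [← h2.2.2.1, h4])
      exact lt_of_lt_of_le (lt_of_le_of_ne h2.1 h3) h1
    · rw [jcD, if_neg hd]
      intro x hx
      obtain ⟨h', hh', hx'⟩ := Finset.mem_biUnion.1 hx
      exact ((hcm J f c h').1 hh').2.1 hx'
  · -- k3
    intro J h f c hJh hhf hdg
    have hJf := hJh.trans hhf
    have hle := hD.d1 J h f c hJh hhf hdg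
    have hbd := hD.bd J h c
    have hbf := hD.bd J f c
    by_cases hd : D J f c = B
    · have hd' : D J h c = B := by omega
      have e1 : jcD B D J f c = ∅ := by rw [jcD, if_pos hd]
      refine ⟨fun _ => ⟨by rw [rkD, rkD, if_pos hd, if_pos hd'],
        by rw [jcD, jcD, if_pos hd, if_pos hd']⟩, fun hn => ?_⟩
      rw [e1] at hn
      exact absurd (Finset.empty_subset _) hn
    · have hsame : D J h c = D J f c → crit D J h c ⊆ crit D J f c := by
        intro he h' hh'
        rw [hcm] at hh' ⊢
        obtain ⟨a1, a2, a3, a4⟩ := hh'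
        exact ⟨a1, a2.trans hhf, by rw [a3, he], fun i b1 b2 => by rw [← he]; exact a4 i b1 b2⟩
      constructor
      · intro hj
        obtain ⟨h₀, hh₀⟩ := hex J f c hJf
        have h1 := (hcm J f c h₀).1 hh₀
        have h2 : h₀ ⊆ h := (hjs J f c hd h₀ hh₀).trans hj
        have h3 := hD.d1 J h₀ h c h1.1 h2 (hA.dgm h f c hhf hdg)
        have he : D J h c = D J f c := by
          have := h1.2.2.1
          omega
        have hc : crit D J h c = crit D J f c := by
          apply Finset.Subset.antisymm (hsame he)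
          intro h' hh'
          have h4 := (hjs J f c hd h' hh').trans hj
          rw [hcm] at hh' ⊢
          obtain ⟨a1, a2, a3, a4⟩ := hh'
          exact ⟨a1, h4, by rw [a3, he], fun i b1 b2 => by rw [he]; exact a4 i b1 b2⟩
        exact ⟨by rw [rkD, rkD, hc, he], by rw [jcD, jcD, hc, he]⟩
      · intro hj
        rw [rkD, rkD, if_neg hd]
        by_cases he : D J h c = D J f c
        · rw [if_neg (by rw [he]; exact hd), he]
          apply Nat.add_lt_add_left
          apply Finset.card_lt_card
          rw [Finset.ssubset_iff_of_subset (hsame he)]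
          by_contra hcon
          push Not at hcon
          apply hj
          rw [jcD, if_neg hd]
          intro x hx
          obtain ⟨h', hh', hx'⟩ := Finset.mem_biUnion.1 hx
          exact ((hcm J h c h').1 (hcon h' hh')).2.1 hx'
        · have hlt : D J f c < D J h c := lt_of_le_of_ne hle (Ne.symm he)
          have h5 : 1 ≤ B - D J f c := by omega
          split_ifs with h6
          · have := Nat.mul_le_mul_right (Fintype.card (Finset (Fin k)) + 1) h5
            omega
          · have h7 : (B - D J h c) + 1 ≤ B - D J f c := by omega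
            have h8 := Nat.mul_le_mul_right (Fintype.card (Finset (Fin k)) + 1) h7
            have h9 := hcard J h c
            rw [Nat.add_mul] at h8
            omega
  · -- k4
    intro J f c p hJf hdg hp hpy
    obtain ⟨e1, e2, e3⟩ := hA.e1 f c p hdg hp hpy
    set c' := ext f c p with hc'
    have hdgf : dg f c' := hA.dgm f Finset.univ c' (Finset.subset_univ _) e2
    have hloc : ∀ h, J ⊆ h → h ⊆ f → D J h c' = D J h c := fun h hJh hhf =>
      hD.deq J h c' c hJh (hA.dgm h f c' hhf hdgf) (hA.mono h f c' c hhf e1)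
    have hd2 : ∀ h, J ⊆ h → min (D J (h ∩ f) c) (D J f c + 1) ≤ D J h c' := fun h hJh =>
      hD.d2 J h f c p hJh hJf hdg hp hpy
    have hup : ∀ h, J ⊆ h → D J h c' ≤ D J (h ∩ f) c := by
      intro h hJh
      rw [← hloc (h ∩ f) (Finset.subset_inter hJh hJf) Finset.inter_subset_right]
      exact hD.d1 J (h ∩ f) h c' (Finset.subset_inter hJh hJf) Finset.inter_subset_left
        (hA.dgm h _ c' (Finset.subset_univ _) e2)
    have hlow : ∀ h, J ⊆ h → h ⊆ f → D J f c ≤ D J h c := fun h hJh hhf =>
      hD.d1 J h f c hJh hhf hdg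
    have he : D J Finset.univ c' = D J f c := by
      have h1 := hd2 Finset.univ (Finset.subset_univ _)
      have h2 := hup Finset.univ (Finset.subset_univ _)
      rw [Finset.univ_inter] at h1 h2
      have h3 : min (D J f c) (D J f c + 1) = D J f c := by omega
      omega
    have hcr : crit D J Finset.univ c' = crit D J f c := by
      ext h
      rw [hcm, hcm, he]
      constructor
      · rintro ⟨a1, a2, a3, a4⟩
        have b1 := hd2 h a1
        have b2 := hup h a1
        have b3 := hlow (h ∩ f) (Finset.subset_inter a1 hJf) Finset.inter_subset_right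
        have b4 : D J (h ∩ f) c = D J f c := by omega
        have b5 : h ∩ f = h := by
          by_contra hne
          have b6 : h ∩ f ⊂ h := lt_of_le_of_ne Finset.inter_subset_left hne
          apply a4 (h ∩ f) (Finset.subset_inter a1 hJf) b6
          rw [hloc (h ∩ f) (Finset.subset_inter a1 hJf) Finset.inter_subset_right, b4]
        have b7 : h ⊆ f := Finset.inter_eq_left.1 b5
        refine ⟨a1, b7, by rw [b5] at b4; exact b4, ?_⟩
        intro h' c1 c2
        rw [← hloc h' c1 (c2.1.trans b7)]
        exact a4 h' c1 c2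
      · rintro ⟨a1, a2, a3, a4⟩
        refine ⟨a1, Finset.subset_univ _, by rw [hloc h a1 a2, a3], ?_⟩
        intro h' c1 c2
        rw [hloc h' c1 (c2.1.trans a2)]
        exact a4 h' c1 c2
    exact ⟨by rw [rkD, rkD, hcr, he], by rw [jcD, jcD, hcr, he]⟩

end Pool.Agent.H76.GX
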