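import Pool.Agent.H76.GX.Asm
import Pool.Agent.H76.GX.COR
import Pool.Agent.H76.GX.RKD
import Pool.Agent.H53.GX.Targets2

/-!
# GMSNP: the core and the corrections
-/

set_option autoImplicit false
set_option linter.unusedVariables false

namespace Pool.Agent.H76.GX

open Pool.Agent.H68.BP Pool.Agent.H58.SF Pool.Agent.H53.GC Pool.Agent.H53.GR Pool.Agent.H53.GM
open Pool.Agent.H53.GX (ps cst rdp Nm CfX lbx kdx EqX RX NatM CS ptn CfD EqD DgX OutP CorP T_CORE)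
open Classical

section basic

variable {τ σ : Sig} {N k L : ℕ} {J J' : Type}

theorem hasl_rs {Al : Fin σ.m → Fin τ.m → Prop} {l : Fin σ.m} {z : Fin (σ.ar l) → J'}
    {u : J' → J} {t : Ty τ N J} : hasl Al l z (rs u t) ↔ hasl Al l (fun i => u (z i)) t := by
  have key : ∀ (c : Fin τ.m) (y : Fin (τ.ar c) → J'),
      atm N c y ∈ rs u t ↔ atm N c (fun i => u (y i)) ∈ t := by
    intro c y
    change ((atm N c y).1, fun v => ((atm N c y).2 v).map u) ∈ t ↔ _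
    have : ((atm N c y).1, fun v => ((atm N c y).2 v).map u) = atm N c (fun i => u (y i)) := by
      refine Prod.ext rfl (funext fun v => ?_)
      change (if h : (v : ℕ) < τ.ar c then some (y ⟨v, h⟩) else none).map u =
        if h : (v : ℕ) < τ.ar c then some (u (y ⟨v, h⟩)) else none
      split_ifs <;> rfl
    rw [this]
  constructor
  · rintro ⟨c, hc, h, hm⟩
    exact ⟨c, hc, h, (key c _).1 hm⟩
  · rintro ⟨c, hc, h, hm⟩
    exact ⟨c, hc, h, (key c _).2 hm⟩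

theorem hasl_rse' {Al : Fin σ.m → Fin τ.m → Prop} {l : Fin σ.m} {z : Fin (σ.ar l) → J}
    {t : Ty τ N J} {S : Finset J} (hz : ∀ i, z i ∈ S) (h : hasl Al l z t) :
    hasl Al l z (rse S t) := by
  obtain ⟨c, hc, har, hm⟩ := h
  refine ⟨c, hc, har, hm, ?_⟩
  intro v i hv
  unfold atm at hv
  dsimp only at hv
  split_ifs at hv with hlt
  have := Option.some.inj hv
  rw [← this]
  exact hz _

theorem rdp_mem {I S : Finset (Fin k)} (hS : S ⊆ I) (v : Fin k) :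
    rdp S v ∈ ps (Finset.univ \ S) ∪ cst I := by
  unfold Pool.Agent.H53.GX.rdp
  split_ifs with h
  · exact Finset.mem_union_right _ (Finset.mem_image_of_mem _ (hS h))
  · exact Finset.mem_union_left _ (Finset.mem_image_of_mem _ (by simp [h]))

/-- restriction to the positions which are read -/
theorem rs_rse {I S : Finset (Fin k)} (hS : S ⊆ I) (t : Ty τ N (Fin (k + k))) :
    rs (rdp S) (rse (ps (Finset.univ \ S) ∪ cst I) t) = rs (rdp S) t := by
  ext q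
  constructor
  · intro h
    exact h.1
  · intro h
    refine ⟨h, ?_⟩
    intro v i hi
    change (q.2 v).map (rdp S) = some i at hi
    obtain ⟨j, -, rfl⟩ := Option.map_eq_some_iff.1 hi
    exact rdp_mem hS j

/-- the relevant parts of the types -/
noncomputable def cut (I : Finset (Fin k)) (c : Nm τ N k L) : Nm τ N k L :=
  (c.1, c.2.1, c.2.2.1, fun i => rse (ps (Finset.univ \ c.1) ∪ cst I) (c.2.2.2 i))

theorem vr_pts' {K : ℕ} (lb : Fin K → Rg L) (e : Finset (Fin K)) : vr (pts lb e) = e := by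
  unfold vr pts
  rw [Finset.image_image]
  exact Finset.image_id'

theorem kdx_cut {I : Finset (Fin k)} {a₀ : Ty τ N (Fin (k + k))} {c : Nm τ N k L}
    {s : Finset (Fin k)} (hs : s ⊆ Finset.univ \ c.1) :
    kdx I a₀ (cut I c) s = kdx I a₀ c s := by
  unfold Pool.Agent.H53.GX.kdx kd rsG
  have hsub : vr (pts (lbx c.2.2.1) (ps s)) ∪ cst I ⊆ ps (Finset.univ \ c.1) ∪ cst I := by
    rw [vr_pts']
    exact Finset.union_subset_union_left (Finset.image_subset_image hs)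
  have h1 : ∀ i, rse (vr (pts (lbx c.2.2.1) (ps s)) ∪ cst I) ((cut I c).2.2.2 i) =
      rse (vr (pts (lbx c.2.2.1) (ps s)) ∪ cst I) (c.2.2.2 i) := fun i => rse_rse hsub _
  have e1 : (cut I c).2.2.1 = c.2.2.1 := rfl
  have e2 : (cut I c).2.1 = c.2.1 := rfl
  rw [e1, e2]
  simp only [h1]

theorem eqx_cut {I : Finset (Fin k)} {a₀ : Ty τ N (Fin (k + k))} {c c' : Nm τ N k L}
    {e : Finset (Fin k)} (h : EqX I a₀ e c c') : EqX I a₀ e (cut I c) (cut I c') := by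
  refine ⟨h.sS, h.sl, ?_⟩
  change kdx I a₀ (cut I c) (e \ c.1) = kdx I a₀ (cut I c') (e \ c'.1)
  rw [kdx_cut (Finset.sdiff_subset_sdiff (Finset.subset_univ _) (Finset.Subset.refl _)),
    kdx_cut (Finset.sdiff_subset_sdiff (Finset.subset_univ _) (Finset.Subset.refl _))]
  exact h.sk

theorem eqx_of_cut {I : Finset (Fin k)} {a₀ : Ty τ N (Fin (k + k))} {c c' : Nm τ N k L}
    {e : Finset (Fin k)} (h : EqX I a₀ e (cut I c) (cut I c')) : EqX I a₀ e c c' := by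
  refine ⟨h.sS, h.sl, ?_⟩
  have h1 : kdx I a₀ (cut I c) (e \ c.1) = kdx I a₀ (cut I c') (e \ c'.1) := h.sk
  rw [kdx_cut (Finset.sdiff_subset_sdiff (Finset.subset_univ _) (Finset.Subset.refl _)),
    kdx_cut (Finset.sdiff_subset_sdiff (Finset.subset_univ _) (Finset.Subset.refl _))] at h1
  exact h1

theorem cfx_cut {F : Set (Str τ (Fin N))} {I : Finset (Fin k)} {a₀ : Ty τ N (Fin (k + k))}
    {c : Nm τ N k L} (h : OkC F I a₀ c) : CfX F I a₀ (cut I c) := by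
  refine ⟨h.sub, ?_, fun v _ => h.reg v, fun v _ v' _ => h.adj v v', ?_⟩
  · intro i
    refine ⟨⟨c.2.2.2 i, (h.mx i).1, rfl⟩, ?_⟩
    change rse (cst I) (rse (ps (Finset.univ \ c.1) ∪ cst I) (c.2.2.2 i)) = a₀
    rw [rse_rse Finset.subset_union_right]
    exact (h.mx i).2
  · rcases h.bin with h1 | ⟨P, P', h1⟩
    · exact Or.inl fun v _ => h1 v
    · right
      refine ⟨rse (ps (Finset.univ \ c.1) ∪ cst I) P, rse (ps (Finset.univ \ c.1) ∪ cst I) P', ?_⟩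
      change (fun i => rse (ps (Finset.univ \ c.1) ∪ cst I) (c.2.2.2 i)) = _
      rw [h1]
      funext i
      exact pat_map _ _ _ _ _

end basic

/-- outputs on configurations -/
theorem pf_BRG : T_BRG := by
  intro τ σ N k L F Al I a₀ Out h1 h2
  refine ⟨fun c => Out (cut I c), ?_, ?_⟩
  · intro c hc l hl
    have h3 := h1 (cut I c) (cfx_cut hc)
    rcases l with _ | q
    · exact h3.1
    · refine ⟨h3.1, h3.2 q.1 q.2 fun i => ?_⟩
      exact hasl_rse' (fun j => rdp_mem hc.sub _) (hl i)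
  · intro e c c' hc hc' hcc
    exact h2 _ _ e (cfx_cut hc) (cfx_cut hc') (eqx_cut hcc)

/-- the core -/
theorem pf_CORE : Pool.Agent.H53.GX.T_CORE := by
  intro τ σ N F Al hF k hk
  have hfin := finite_ty τ N (Fin k)
  obtain ⟨ε, h1, h2, h3⟩ := cor_main k (Ty τ N (Fin k))
    (Option (Σ l : Fin σ.m, (Fin (σ.ar l) → Fin k))) rse (RP F Al) none (pb_rp F Al)
  refine ⟨ε, ⟨?_, h2, ?_⟩⟩
  · refine ⟨fun P hP => h1.rel none P hP, fun P hP l z hl => ?_, fun P hP P' hP' e he =>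
      h1.nat e P P' hP hP' he⟩
    exact (h1.rel (some ⟨l, z⟩) P ⟨hP, hl⟩).2
  · intro th hth P hP P' hP' e he
    refine h3 th ⟨?_, ?_⟩ e P P' hP hP' he
    · intro l Q hQ
      have hQ' : Q ∈ CS F ε := ⟨rp_base F Al l Q hQ.1, hQ.2⟩
      have h4 := hth.mem Q hQ'
      refine ⟨?_, h4.2⟩
      rcases l with _ | q
      · exact h4.1
      · exact ⟨h4.1, hth.has Q hQ' q.1 q.2 hQ.1.2⟩
    · intro e' Q Q' hQ hQ' hQQ
      exact hth.nat Q hQ Q' hQ' e' hQQ

theorem core_of {τ σ : Sig} {N k : ℕ} {F : Set (Str τ (Fin N))} {Al : Fin σ.m → Fin τ.m → Prop}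
    {ε : Ty τ N (Fin k) → Ty τ N (Fin k)} (h : Pool.Agent.H53.GX.Core F Al ε) :
    Core rse (RPe F Al ε) none := by
  intro θ hθ e P P' hP hP' hPP
  refine h.inj θ ⟨fun Q hQ => ?_, fun Q hQ l z hl => ?_, fun Q hQ Q' hQ' e' hQQ => ?_⟩ P hP P'
    hP' e hPP
  · exact hθ.rel none Q hQ
  · exact (hθ.rel (some ⟨l, z⟩) Q ⟨⟨hQ.1, hl⟩, hQ.2⟩).1.2
  · exact hθ.nat e' Q Q' hQ hQ' hQQ

/-- outputs and corrections, explicit form -/
theorem pck_of (hCAX : T_CAX) (hDAX : T_DAX)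
    (τ σ : Sig) (N k : ℕ) (F : Set (Str τ (Fin N))) (Al : Fin σ.m → Fin τ.m → Prop)
    (ε : Ty τ N (Fin k) → Ty τ N (Fin k)) (hF : Hyp τ N F) (hk : 1 ≤ k)
    (hε : Pool.Agent.H53.GX.Core F Al ε) (I : Finset (Fin k)) (a₀ : Ty τ N (Fin (k + k)))
    (Out : Nm τ N k (N + 1) → Ty τ N (Fin k)) (hOut : OutP F Al I a₀ Out) :
    ∃ θ : Nm τ N k (N + 1) → Ty τ N (Fin k) → Ty τ N (Fin k),
      Pck F Al ε I a₀ (fun c => ε (Out (cut I c))) θ := by
  have hfin := finite_ty τ N (Fin k)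
  have h1L : 1 ≤ N + 1 := by omega
  have hA := hCAX τ σ N k (N + 1) F Al ε I a₀ hF hk h1L
  have hD := hDAX τ σ N k (N + 1) F Al ε I a₀ hF hk h1L
  have hB := pb_rpe F Al ε
  obtain ⟨rk, jc, hR⟩ := rkd_main k _ _ _ rse (RPe F Al ε) none _ _ _ _ _ (Bd τ N) _ hB hA hD
  have e0 : ∀ c : Nm τ N k (N + 1), OkC F I a₀ c → ∀ l, atC Al c l →
      RP F Al l (Out (cut I c)) := by
    intro c hc l hl
    have h3 := hOut.rl (cut I c) (cfx_cut hc)
    rcases l with _ | q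
    · exact h3
    · refine ⟨h3, hOut.has _ (cfx_cut hc) q.1 q.2 fun i => ?_⟩
      unfold Pool.Agent.H53.GX.ptn
      rw [hasl_rs]
      exact hasl_rse' (fun j => rdp_mem hc.sub _) (hl i)
  have e1 : ∀ c : Nm τ N k (N + 1), OkC F I a₀ c → ∀ l, atC Al c l →
      RPe F Al ε l (ε (Out (cut I c))) := by
    intro c hc l hl
    have h4 := e0 c hc l hl
    have h5 := rp_base F Al l _ h4
    refine ⟨?_, hε.idem _ h5⟩
    rcases l with _ | q
    · exact hε.nat.mem _ h5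
    · exact ⟨hε.nat.mem _ h5, hε.nat.has _ h5 q.1 q.2 h4.2⟩
  have e2 : ∀ e (c c' : Nm τ N k (N + 1)), OkC F I a₀ c → OkC F I a₀ c' → EqX I a₀ e c c' →
      rse e (ε (Out (cut I c))) = rse e (ε (Out (cut I c'))) := by
    intro e c c' hc hc' hcc
    exact hε.nat.nat _ (e0 c hc none trivial) _ (e0 c' hc' none trivial) e
      (hOut.eq _ _ e (cfx_cut hc) (cfx_cut hc') (eqx_cut hcc))
  have hO : OA rse (RPe F Al ε) none
      (fun e (c c' : CC (N + 1) F I a₀) => EqC I a₀ e c.1 c'.1) (fun l c => atC Al c.1 l)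
      (fun c => ε (Out (cut I c.1))) :=
    ⟨fun l c hl => e1 c.1 c.2 l hl, fun c => e1 c.1 c.2 none trivial,
      fun e c c' hcc => e2 e c.1 c'.1 c.2 c'.2 hcc.1⟩
  obtain ⟨θ, t1, t2⟩ := acl_main k _ _ _ rse (RPe F Al ε) none _ _ _ _ _ rk jc _ hB (core_of hε)
    hA hR hO
  refine ⟨fun c => if h : OkC F I a₀ c then θ ⟨c, h⟩ else fun P => P, ?_⟩
  have e3 : ∀ (c : Nm τ N k (N + 1)) (hc : OkC F I a₀ c),
      (if h : OkC F I a₀ c then θ ⟨c, h⟩ else fun P => P) = θ ⟨c, hc⟩ := fun c hc => dif_pos hc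
  refine ⟨?_, ?_, e1, e2, ?_⟩
  · intro c hc l P hP
    rw [e3 c hc]
    exact t1.nt ⟨c, hc⟩ l P hP
  · intro e c c' hc hc' hcc P P' hP hP' hPP
    rw [e3 c hc, e3 c' hc']
    exact t1.nat e ⟨c, hc⟩ ⟨c', hc'⟩ P P' hcc hP hP' hPP
  · intro e c hc hd
    rw [e3 c hc]
    exact t2 e ⟨c, hc⟩ hd

/-- full types -/
noncomputable def fll {τ : Sig} {N k L : ℕ} (F : Set (Str τ (Fin N))) (I : Finset (Fin k))
    (q : Nm τ N k L) : Nm τ N k L :=
  (q.1, q.2.1, q.2.2.1, fun i =>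
    if h : ∃ P, Rl F P ∧ rse (ps (Finset.univ \ q.1) ∪ cst I) P = q.2.2.2 i then h.choose
    else q.2.2.2 i)

theorem fll_spec {τ : Sig} {N k L : ℕ} {F : Set (Str τ (Fin N))} {I : Finset (Fin k)}
    {a₀ : Ty τ N (Fin (k + k))} {q : Nm τ N k L} (h : CfX F I a₀ q) (i : Fin 6) :
    Rl F ((fll F I q).2.2.2 i) ∧
      rse (ps (Finset.univ \ q.1) ∪ cst I) ((fll F I q).2.2.2 i) = q.2.2.2 i := by
  have h1 := (h.rl i).1
  have e1 : (fll F I q).2.2.2 i = h1.choose := dif_pos h1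
  rw [e1]
  exact h1.choose_spec

theorem cut_fll {τ : Sig} {N k L : ℕ} {F : Set (Str τ (Fin N))} {I : Finset (Fin k)}
    {a₀ : Ty τ N (Fin (k + k))} {q : Nm τ N k L} (h : CfX F I a₀ q) :
    cut I (fll F I q) = q := by
  obtain ⟨S, r, lb, lam⟩ := q
  change (S, r, lb, fun i => rse (ps (Finset.univ \ S) ∪ cst I) ((fll F I _).2.2.2 i)) = _
  have : (fun i => rse (ps (Finset.univ \ S) ∪ cst I) ((fll F I (S, r, lb, lam)).2.2.2 i)) =
      lam := funext fun i => (fll_spec h i).2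
  rw [this]

theorem okc_fll {τ : Sig} {N k L : ℕ} {F : Set (Str τ (Fin N))} {I : Finset (Fin k)}
    {a₀ : Ty τ N (Fin (k + k))} {q : Nm τ N k L} (h : CfD F I a₀ q) :
    OkC F I a₀ (fll F I q) := by
  refine ⟨h.cf.sub, fun i => ⟨(fll_spec h.cf i).1, ?_⟩, h.reg, h.adj, ?_⟩
  · have h1 := (fll_spec h.cf i).2
    have h2 : rse (cst I) (rse (ps (Finset.univ \ q.1) ∪ cst I) ((fll F I q).2.2.2 i)) =
        rse (cst I) ((fll F I q).2.2.2 i) := rse_rse Finset.subset_union_right _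
    rw [← h2, h1]
    exact (h.cf.rl i).2
  · rcases h.bin with h1 | ⟨P, P', h1⟩
    · exact Or.inl h1
    · right
      let g : Ty τ N (Fin (k + k)) → Ty τ N (Fin (k + k)) := fun t =>
        if h : ∃ P, Rl F P ∧ rse (ps (Finset.univ \ q.1) ∪ cst I) P = t then h.choose else t
      refine ⟨g P, g P', ?_⟩
      have e1 : (fll F I q).2.2.2 = fun i => g (q.2.2.2 i) := rfl
      have e2 : (fll F I q).2.1 = q.2.1 := rfl
      rw [e1, e2, h1]
      funext i
      exact pat_map g _ _ _ _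

/-- the corrections -/
theorem pf_CORP (hCAX : T_CAX) (hDAX : T_DAX) : Pool.Agent.H53.GX.T_COR := by
  intro τ σ N F Al hF k hk ε hε I a₀ ha₀ Out hOut
  obtain ⟨θ, hθ⟩ := pck_of hCAX hDAX τ σ N k F Al ε hF hk hε I a₀ Out hOut
  have heq : ∀ e (q q' : Nm τ N k (N + 1)), CfD F I a₀ q → CfD F I a₀ q' → EqD I a₀ e q q' →
      EqC I a₀ e (fll F I q) (fll F I q') := by
    intro e q q' hq hq' h
    refine ⟨eqx_of_cut ?_, h.lb⟩
    rw [cut_fll hq.cf, cut_fll hq'.cf]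
    exact h.eqx
  refine ⟨fun q => θ (fll F I q), hOut, ?_, ?_, ?_⟩
  · intro q hq
    have hok := okc_fll hq
    refine ⟨fun P hP => hθ.pn _ hok none P hP, fun P hP l z hl => ?_, fun P hP P' hP' e he => ?_⟩
    · exact (hθ.pn _ hok (some ⟨l, z⟩) P ⟨⟨hP.1, hl⟩, hP.2⟩).1.2
    · refine hθ.pa e _ _ hok hok ?_ P P' hP hP' he
      exact heq e q q hq hq ⟨⟨fun v _ => Iff.rfl, fun v _ _ => rfl, rfl⟩, fun v _ => rfl⟩
  · intro q q' e hq hq' h P hP P' hP' he
    exact hθ.pa e _ _ (okc_fll hq) (okc_fll hq') (heq e q q' hq hq' h) P P' hP hP' he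
  · intro q e hq hd
    have hok := okc_fll hq
    have hptn : ∀ i, rs (rdp (fll F I q).1) ((fll F I q).2.2.2 i) = ptn q i := by
      intro i
      change rs (rdp q.1) ((fll F I q).2.2.2 i) = rs (rdp q.1) (q.2.2.2 i)
      rw [← rs_rse hq.cf.sub ((fll F I q).2.2.2 i), (fll_spec hq.cf i).2]
    obtain ⟨h1, P, hP, h2⟩ := hd
    have h3 : dgC F ε e (fll F I q) := by
      refine ⟨P, hP, fun i => ?_⟩
      rw [hptn i, h1 i, h2]
    have h4 := hθ.pd e _ hok h3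
    unfold yC at h4
    rw [hptn 0, cut_fll hq.cf] at h4
    exact h4

end Pool.Agent.H76.GX
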