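import Pool.Agent.H76.GX.BRG
import Pool.Agent.H29.GM.CSS

/-!
# GMSNP: the axioms for configurations
-/

set_option autoImplicit false
set_option linter.unusedVariables false

namespace Pool.Agent.H76.GX

open Pool.Agent.H68.BP Pool.Agent.H58.SF Pool.Agent.H53.GC Pool.Agent.H53.GR Pool.Agent.H53.GM
open Pool.Agent.H53.GX (ps cst rdp Nm CfX lbx kdx EqX RX)
open Classical

section

variable {τ σ : Sig} {N k L : ℕ}

theorem rdp_gs {I S e : Finset (Fin k)} (hS : S ⊆ I) {v : Fin k} (hv : v ∈ e) :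
    rdp S v ∈ gs I S e := by
  unfold Pool.Agent.H53.GX.rdp
  split_ifs with h
  · exact Finset.mem_union_right _ (Finset.mem_image_of_mem _ (hS h))
  · exact Finset.mem_union_left _ (Finset.mem_image_of_mem _ (by simp [h, hv]))

/-- The label of the positions is determined by the label of the guard and the constants. -/
theorem rse_rs_of_gs {I S e : Finset (Fin k)} (hS : S ⊆ I) {t t' : Ty τ N (Fin (k + k))}
    (h : rse (gs I S e) t = rse (gs I S e) t') :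
    rse e (rs (rdp S) t) = rse e (rs (rdp S) t') := by
  have key : ∀ t t' : Ty τ N (Fin (k + k)), rse (gs I S e) t = rse (gs I S e) t' →
      rse e (rs (rdp S) t) ⊆ rse e (rs (rdp S) t') := by
    intro t t' h q hq
    obtain ⟨h1, h2⟩ := hq
    have h3 : ((q.1, fun v => (q.2 v).map (rdp S)) : Str τ (Fin N) × _) ∈ rse (gs I S e) t := by
      refine ⟨h1, ?_⟩
      intro v i hi
      change (q.2 v).map (rdp S) = some i at hi
      obtain ⟨j, hj, rfl⟩ := Option.map_eq_some_iff.1 hi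
      exact rdp_gs hS (h2 v j hj)
    rw [h] at h3
    exact ⟨h3.1, h2⟩
  exact Set.Subset.antisymm (key t t' h) (key t' t h.symm)

/-- `rdp` depends on `S` inside `e` only -/
theorem rse_rs_congr {S S' e : Finset (Fin k)} (h : ∀ v ∈ e, v ∈ S ↔ v ∈ S')
    (t : Ty τ N (Fin (k + k))) : rse e (rs (rdp S) t) = rse e (rs (rdp S') t) := by
  have hr : ∀ v ∈ e, rdp S v = rdp S' v := by
    intro v hv
    unfold Pool.Agent.H53.GX.rdp
    simp only [h v hv]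
  have key : ∀ S S' : Finset (Fin k), (∀ v ∈ e, rdp S v = rdp S' v) →
      rse e (rs (rdp S) t) ⊆ rse e (rs (rdp S') t) := by
    rintro S S' hr q ⟨h1, h2⟩
    refine ⟨?_, h2⟩
    have h3 : (fun v => (q.2 v).map (rdp S)) = fun v => (q.2 v).map (rdp S') := by
      funext v
      rcases hv : q.2 v with _ | j
      · rfl
      · change some (rdp S j) = some (rdp S' j)
        rw [hr j (h2 v j hv)]
    change (q.1, fun v => (q.2 v).map (rdp S)) ∈ t at h1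
    change (q.1, fun v => (q.2 v).map (rdp S')) ∈ t
    rw [← h3]
    exact h1
  exact Set.Subset.antisymm (key S S' hr) (key S' S fun v hv => (hr v hv).symm)

theorem gs_congr {I S S' e : Finset (Fin k)} (h : ∀ v ∈ e, v ∈ S ↔ v ∈ S') :
    gs I S e = gs I S' e := by
  unfold gs
  have : e \ S = e \ S' := by
    ext v
    simp only [Finset.mem_sdiff]
    constructor
    · rintro ⟨h1, h2⟩
      exact ⟨h1, fun h3 => h2 ((h v h1).2 h3)⟩
    · rintro ⟨h1, h2⟩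
      exact ⟨h1, fun h3 => h2 ((h v h1).1 h3)⟩
  rw [this]

theorem eqc_refl (I : Finset (Fin k)) (a₀ : Ty τ N (Fin (k + k))) (e : Finset (Fin k))
    (c : Nm τ N k L) : EqC I a₀ e c c :=
  ⟨⟨fun _ _ => Iff.rfl, fun _ _ _ => rfl, rfl⟩, fun _ _ => rfl⟩

theorem eqc_symm {I : Finset (Fin k)} {a₀ : Ty τ N (Fin (k + k))} {e : Finset (Fin k)}
    {c c' : Nm τ N k L} (h : EqC I a₀ e c c') : EqC I a₀ e c' c :=
  ⟨⟨fun v hv => (h.1.sS v hv).symm, fun v hv _ => (h.2 v hv).symm, h.1.sk.symm⟩,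
    fun v hv => (h.2 v hv).symm⟩

theorem eqc_trans {I : Finset (Fin k)} {a₀ : Ty τ N (Fin (k + k))} {e : Finset (Fin k)}
    {c c' c'' : Nm τ N k L} (h : EqC I a₀ e c c') (h' : EqC I a₀ e c' c'') :
    EqC I a₀ e c c'' :=
  ⟨⟨fun v hv => (h.1.sS v hv).trans (h'.1.sS v hv),
    fun v hv _ => (h.2 v hv).trans (h'.2 v hv), h.1.sk.trans h'.1.sk⟩,
    fun v hv => (h.2 v hv).trans (h'.2 v hv)⟩

theorem kdx_res {I : Finset (Fin k)} {a₀ : Ty τ N (Fin (k + k))} {s s' : Finset (Fin k)}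
    (hs : s ⊆ s') (c : Nm τ N k L) :
    kdx I a₀ c s = rsG (cst I) a₀ (pts (lbx c.2.2.1) (ps s)) (kdx I a₀ c s') := by
  unfold Pool.Agent.H53.GX.kdx kd
  rw [Pool.Agent.H29.GM.rsG_rsG]
  exact Finset.image_subset_image (Finset.image_subset_image hs)

theorem pts_lbx {c c' : Nm τ N k L} {s : Finset (Fin k)} (h : ∀ v ∈ s, c.2.2.1 v = c'.2.2.1 v) :
    pts (lbx c.2.2.1) (ps s) = pts (lbx c'.2.2.1) (ps s) := by
  unfold pts
  refine Finset.image_congr fun w hw => ?_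
  obtain ⟨v, hv, rfl⟩ := Finset.mem_image.1 hw
  have e1 : ∀ lb : Fin k → Rg L, lbx lb (Fin.castAdd k v) = lb v := fun lb =>
    Fin.addCases_left v
  rw [e1, e1, h v hv]

theorem eqc_mono {I : Finset (Fin k)} {a₀ : Ty τ N (Fin (k + k))} {e f : Finset (Fin k)}
    {c c' : Nm τ N k L} (hef : e ⊆ f) (h : EqC I a₀ f c c') : EqC I a₀ e c c' := by
  refine ⟨⟨fun v hv => h.1.sS v (hef hv), fun v hv => h.1.sl v (hef hv), ?_⟩,
    fun v hv => h.2 v (hef hv)⟩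
  have h1 : e \ c'.1 = e \ c.1 := by
    ext v
    simp only [Finset.mem_sdiff]
    constructor
    · rintro ⟨h1, h2⟩
      exact ⟨h1, fun h3 => h2 ((h.1.sS v (hef h1)).1 h3)⟩
    · rintro ⟨h1, h2⟩
      exact ⟨h1, fun h3 => h2 ((h.1.sS v (hef h1)).2 h3)⟩
  have h2 : e \ c.1 ⊆ f \ c.1 := Finset.sdiff_subset_sdiff hef (Finset.Subset.refl _)
  have h3 : e \ c'.1 ⊆ f \ c'.1 := Finset.sdiff_subset_sdiff hef (Finset.Subset.refl _)
  rw [kdx_res h2, kdx_res h3, h1, h.1.sk]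
  rw [pts_lbx (c := c) (c' := c') fun v hv => h.2 v (hef (Finset.mem_sdiff.1 hv).1)]

end

theorem pf_CAX (hLCL : T_LCL) (hEX1 : T_EX1) (hEX2 : T_EX2) (hFAX : T_FAX) : T_CAX := by
  intro τ σ N k L F Al ε I a₀ hF hk hL
  -- the labels at the positions `e`
  have hlab : ∀ e (c c' : CC L F I a₀), EqC I a₀ e c.1 c'.1 → ∀ i, ∃ j,
      rse e (rs (rdp c.1.1) (c.1.2.2.2 j)) = rse e (rs (rdp c'.1.1) (c'.1.2.2.2 i)) := by
    intro e c c' h i
    obtain ⟨j, hj⟩ := hLCL τ N k L F I a₀ e c.1 c'.1 hL c.2 c'.2 h.1 i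
    refine ⟨j, ?_⟩
    rw [← gs_congr h.1.sS] at hj
    rw [rse_rs_of_gs c.2.sub hj]
    exact rse_rs_congr h.1.sS _
  have hfree : ∀ J (c : CC L F I a₀) p, dgC F ε J c.1 → RPe F Al ε none p →
      rse J p = yC J c.1 → ∀ i, rse J (rs (rdp c.1.1) (c.1.2.2.2 i)) = rse J p := by
    rintro J c p ⟨P, hP, h1⟩ hp hpy i
    rw [h1 i, hpy]
    exact (h1 0).symm
  have hexC : ∀ J (c : CC L F I a₀) p (h : OkC F I a₀ (exR F I J c.1 p)),
      exC F I a₀ J c p = ⟨exR F I J c.1 p, h⟩ := fun J c p h => dif_pos h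
  have hfax : ∀ J (c : CC L F I a₀) p, dgC F ε J c.1 → RPe F Al ε none p →
      rse J p = yC J c.1 → ∀ i, rs (rdp (c.1.1 ∩ J)) (fa F I c.1.1 J p (c.1.2.2.2 i)) = p := by
    intro J c p hd hp hpy i
    exact (hFAX τ N k F I c.1.1 J p (c.1.2.2.2 i) hF hk c.2.sub hp.1 (c.2.mx i).1
      (hfree J c p hd hp hpy i).symm).2.1
  refine ⟨?_, ?_, ?_, ?_, ?_, ?_, ?_, ?_, ?_, ?_, ?_, ?_⟩
  · exact fun e c => eqc_refl I a₀ e c.1
  · exact fun e c c' h => eqc_symm h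
  · exact fun e c c' c'' h h' => eqc_trans h h'
  · exact fun e f c c' hef h => eqc_mono hef h
  · rintro e f c hef ⟨P, hP, h⟩
    refine ⟨P, hP, fun i => ?_⟩
    rw [← rse_rse hef, h i, rse_rse hef]
  · rintro e c c' h ⟨P, hP, h1⟩
    refine ⟨P, hP, fun i => ?_⟩
    obtain ⟨j, hj⟩ := hlab e c c' h i
    rw [← hj]
    exact h1 j
  · rintro e c c' h ⟨P, hP, h1⟩
    obtain ⟨j, hj⟩ := hlab e c c' h 0
    change rse e (rs (rdp c.1.1) (c.1.2.2.2 0)) = rse e (rs (rdp c'.1.1) (c'.1.2.2.2 0))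
    rw [← hj, h1 j, h1 0]
  · rintro e f c hef hd
    exact rse_rse hef _
  · rintro e c ⟨P, hP, h1⟩
    exact ⟨P, ⟨hP.1, hP.2⟩, (h1 0).symm⟩
  · intro J c p hd hp hpy
    have hfr := hfree J c p hd hp hpy
    obtain ⟨h1, h2⟩ := hEX1 τ N k L F I a₀ J c.1 p hF hk c.2 hp.1 hfr
    have h3 := hfax J c p hd hp hpy
    rw [hexC J c p h1]
    refine ⟨h2, ⟨p, ⟨hp.1, hp.2⟩, fun i => ?_⟩, ?_⟩
    · change rse Finset.univ (rs (rdp (c.1.1 ∩ J)) (fa F I c.1.1 J p (c.1.2.2.2 i))) = _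
      rw [h3 i]
    · change rse Finset.univ (rs (rdp (c.1.1 ∩ J)) (fa F I c.1.1 J p (c.1.2.2.2 0))) = _
      rw [h3 0, rse_univ']
  · intro J e c c' p p' hJe hd hp hpy hp' hpy' h hpp
    have hd' : dgC F ε J c'.1 := by
      obtain ⟨P, hP, h1⟩ := hd
      refine ⟨P, hP, fun i => ?_⟩
      obtain ⟨j, hj⟩ := hlab J c c' (eqc_mono hJe h) i
      rw [← hj]
      exact h1 j
    have hfr := hfree J c p hd hp hpy
    have hfr' := hfree J c' p' hd' hp' hpy'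
    obtain ⟨h1, -⟩ := hEX1 τ N k L F I a₀ J c.1 p hF hk c.2 hp.1 hfr
    obtain ⟨h1', -⟩ := hEX1 τ N k L F I a₀ J c'.1 p' hF hk c'.2 hp'.1 hfr'
    rw [hexC J c p h1, hexC J c' p' h1']
    exact hEX2 τ N k L F I a₀ J e c.1 c'.1 p p' hF hk hL c.2 c'.2 hJe hp.1 hp'.1 hfr hfr' h hpp
  · intro J c l p hd hp hpy
    have hp0 : RPe F Al ε none p := ⟨rp_base F Al l p hp.1, hp.2⟩
    have hfr := hfree J c p hd hp0 hpy
    obtain ⟨h1, -⟩ := hEX1 τ N k L F I a₀ J c.1 p hF hk c.2 hp0.1 hfr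
    have h3 := hfax J c p hd hp0 hpy
    rw [hexC J c p h1]
    rcases l with _ | q
    · trivial
    · intro i
      have h4 : hasl Al q.1 q.2 (rs (rdp (c.1.1 ∩ J)) (fa F I c.1.1 J p (c.1.2.2.2 i))) := by
        rw [h3 i]
        exact hp.1.2
      exact hasl_rs.1 h4

end Pool.Agent.H76.GX
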