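import Pool.Agent.H53.GX.Targets2

/-!
# GMSNP: from chains of operations to chains of families
-/

set_option autoImplicit false
set_option linter.unusedVariables false

namespace Pool.Agent.H76.GX.CHF

open Pool.Agent.H68.BP Pool.Agent.H58.SF Pool.Agent.H53.GM Pool.Agent.H53.GX
open Pool.Agent.H53.GR (So)
open Classical

section

variable {τ σ : Sig} {N k : ℕ}

theorem vp_pat {C : Set (Ty τ N (Fin k))} {I : Finset (Fin k)} {P : Fin 2 → Ty τ N (Fin k)}
    (hP : VP C I P) (r : Fin 3) : VP C I (pat r (P 0) (P 1)) := by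
  have key : ∀ c : Fin 6, pat r (P 0) (P 1) c = P 0 ∨ pat r (P 0) (P 1) c = P 1 := by
    intro c
    fin_cases r <;> fin_cases c <;> simp [pat]
  refine ⟨fun c => ?_, fun e' he' c c' => ?_⟩
  · rcases key c with h | h <;> rw [h]
    · exact hP.mem 0
    · exact hP.mem 1
  · have h00 := hP.eq e' he'
    rcases key c with h | h <;> rcases key c' with h' | h' <;> rw [h, h'] <;> exact h00 _ _

theorem vp_three {C : Set (Ty τ N (Fin k))} {I : Finset (Fin k)} {A B Q : Ty τ N (Fin k)}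
    (hA : A ∈ C) (hB : B ∈ C) (hQ : Q ∈ C)
    (hAB : ∀ e : Finset (Fin k), ¬ I ⊂ e → rse e B = rse e A)
    (hAQ : ∀ e : Finset (Fin k), ¬ I ⊂ e → rse e Q = rse e A) : VP C I ![A, B, Q] := by
  have key : ∀ c : Fin 3, ![A, B, Q] c ∈ C ∧
      ∀ e : Finset (Fin k), ¬ I ⊂ e → rse e (![A, B, Q] c) = rse e A := by
    intro c
    fin_cases c
    · exact ⟨hA, fun _ _ => rfl⟩
    · exact ⟨hB, hAB⟩
    · exact ⟨hQ, hAQ⟩
  exact ⟨fun c => (key c).1, fun e he i i' => ((key i).2 e he).trans ((key i').2 e he).symm⟩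

theorem three_map (f : Ty τ N (Fin k) → Ty τ N (Fin k)) (A B Q : Ty τ N (Fin k)) :
    ![f A, f B, f Q] = fun i => f (![A, B, Q] i) := by
  funext i
  fin_cases i <;> rfl

end

theorem pf_CHF (hVTP : Pool.Agent.H53.GX.T_VTP) (hOPF : Pool.Agent.H53.GX.T_OPF) :
    Pool.Agent.H53.GX.T_CHF := by
  intro τ σ N k F Al hk C I hC hch
  obtain ⟨H, D, hH, hD, hr⟩ := hch
  obtain ⟨GH, gH1, gH2⟩ := hOPF τ σ N k F Al hk C I hC (Fin 6) H hH
  obtain ⟨GD, gD1, gD2⟩ := hOPF τ σ N k F Al hk C I hC (Fin 2) D hD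
  have hv : ∀ (J : Type) (p : J → So N k → Ty τ N (Fin k)), VT (RS C Al) none I p →
      ∃ P : J → Ty τ N (Fin k), VP C I P ∧ ∀ i (e : So N k), p i e = rse e.1 (P i) := by
    intro J p hp
    obtain ⟨P, h1, h2, _⟩ := hVTP τ σ N k F Al hk C I hC J none p hp
    exact ⟨P, h1, h2⟩
  refine ⟨GH, GD, gH1, gD1, fun r => ?_⟩
  obtain ⟨m, G, h1, h2, h3, h4⟩ := hr r
  choose Gf gf1 gf2 using fun j => hOPF τ σ N k F Al hk C I hC (Fin 2) (G j) (h1 j)
  refine ⟨m, Gf, gf1, ?_, ?_, ?_⟩
  · intro e p hp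
    obtain ⟨P, hP, hpP⟩ := hv _ p hp
    have e1 : (fun i => p i e) = fun i => rse e.1 (P i) := funext fun i => hpP i e
    have e2 : pat r (rse e.1 (P 0)) (rse e.1 (P 1)) =
        fun i => rse e.1 (pat r (P 0) (P 1) i) :=
      funext fun i => (pat_map (rse e.1) r _ _ i).symm
    show Gf 0 e (fun i => p i e) = GH e (pat r (p 0 e) (p 1 e))
    rw [hpP 0 e, hpP 1 e, e1, e2, gf2 0 P hP e, gH2 _ (vp_pat hP r) e, h2 P hP e.1]
  · intro e p hp
    obtain ⟨P, hP, hpP⟩ := hv _ p hp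
    have e1 : (fun i => p i e) = fun i => rse e.1 (P i) := funext fun i => hpP i e
    show Gf m e (fun i => p i e) = GD e (fun i => p i e)
    rw [e1, gf2 m P hP e, gD2 P hP e, h3 P hP e.1]
  · intro j hj
    rcases h4 j hj with ⟨v, hv1, hv2⟩ | ⟨Θ, t1, t2, m', t3, t4⟩
    · left
      refine ⟨v, hv1, fun e he p hp => ?_⟩
      obtain ⟨P, hP, hpP⟩ := hv _ p hp
      have e1 : (fun i => p i e) = fun i => rse e.1 (P i) := funext fun i => hpP i e
      show Gf j e (fun i => p i e) = Gf (j + 1) e (fun i => p i e)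
      rw [e1, gf2 j P hP e, gf2 (j + 1) P hP e]
      exact hv2 P hP e.1 he
    · right
      obtain ⟨T, T1, T2⟩ := hOPF τ σ N k F Al hk C I hC (Fin 3) Θ t1
      refine ⟨T, T1, ?_, m', t3, ?_⟩
      · intro e p hp
        obtain ⟨P, hP, hpP⟩ := hv _ p hp
        have e1 : (fun i => p i e) = fun i => rse e.1 (P i) := funext fun i => hpP i e
        show Gf (j + 1) e (fun i => p i e) = T e ![p 0 e, p 1 e, Gf j e (fun i => p i e)]
        rw [hpP 0 e, hpP 1 e, e1, gf2 j P hP e, gf2 (j + 1) P hP e, three_map (rse e.1),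
          T2 _ (vp_three (hP.mem 0) (hP.mem 1) ((h1 j).mem P hP)
            (fun e he => hP.eq e he 1 0)
            (fun e he => (h1 j).idem P hP e _ fun i => hP.eq e he i 0)) e, t2 P hP e.1]
      · intro e p hp
        obtain ⟨P, hP, hpP⟩ := hv _ p hp
        have e1 : (fun i => p i e) = fun i => rse e.1 (P i) := funext fun i => hpP i e
        have key : ∀ n, itO Θ n P ∈ C ∧
            (∀ e : Finset (Fin k), ¬ I ⊂ e → rse e (itO Θ n P) = rse e (P 0)) ∧
            ∀ e : So N k, itT T n e (fun i => rse e.1 (P i)) = rse e.1 (itO Θ n P) := by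
          intro n
          induction n with
          | zero => exact ⟨hP.mem 2, fun e he => hP.eq e he 2 0, fun e => rfl⟩
          | succ n ih =>
            obtain ⟨i1, i2, i3⟩ := ih
            have hvp : VP C I ![P 0, P 1, itO Θ n P] :=
              vp_three (hP.mem 0) (hP.mem 1) i1 (fun e he => hP.eq e he 1 0) i2
            refine ⟨t1.mem _ hvp, fun e he => ?_, fun e => ?_⟩
            · exact t1.idem _ hvp e _ fun i => hvp.eq e he i 0
            · show T e ![rse e.1 (P 0), rse e.1 (P 1), itT T n e (fun i => rse e.1 (P i))] =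
                rse e.1 (Θ ![P 0, P 1, itO Θ n P])
              rw [i3 e, three_map (rse e.1), T2 _ hvp e]
        show itT T m' e (fun i => p i e) = p 2 e
        rw [hpP 2 e, e1, (key m').2.2 e, t4 P hP e.1]

end Pool.Agent.H76.GX.CHF
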