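import Pool.Agent.H76.GX.CAX

/-!
# GMSNP: the axiom `d2` of distances
-/

set_option autoImplicit false
set_option linter.unusedVariables false

namespace Pool.Agent.H76.GX

open Pool.Agent.H68.BP Pool.Agent.H58.SF Pool.Agent.H53.GC Pool.Agent.H53.GR Pool.Agent.H53.GM
open Pool.Agent.H53.GX (ps cst rdp Nm CfX lbx kdx EqX RX)
open Classical

section

variable {τ σ : Sig} {N k L : ℕ} {F : Set (Str τ (Fin N))} {I : Finset (Fin k)}

/-- pieces without atoms are in all types -/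
theorem mem_of_atc {J : Type} (hJ : Nonempty J) {q : Str τ (Fin N) × (Fin N → Option J)}
    (h : atc q = 0) {t : Ty τ N J} (ht : Rl F t) : q ∈ t := by
  obtain ⟨W, hW, M, a, -, rfl⟩ := ht
  have hno : ∀ (l : Fin τ.m) (z : Fin (τ.ar l) → Fin N), ¬ q.1 l z := by
    intro l z hz
    have hE : IsEmpty {x : Σ l : Fin τ.m, (Fin (τ.ar l) → Fin N) // q.1 x.1 x.2} := by
      rcases Nat.card_eq_zero.1 h with h1 | h1
      · exact h1
      · exact absurd (inferInstance : Finite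
          {x : Σ l : Fin τ.m, (Fin (τ.ar l) → Fin N) // q.1 x.1 x.2}) (by
            rw [not_finite_iff_infinite]; exact h1)
    exact hE.elim ⟨⟨l, z⟩, hz⟩
  obtain ⟨j₀⟩ := hJ
  refine ⟨?_, fun v => match q.2 v with
    | some i => a i
    | none => a j₀, ?_, ?_⟩
  · rintro S - ⟨l, z, hz, -⟩
    exact absurd hz (hno l z)
  · intro l z hz
    exact absurd hz (hno l z)
  · intro v i hi
    simp only [hi]

theorem fa_mono {S J : Finset (Fin k)} {p p' : Ty τ N (Fin k)} {t : Ty τ N (Fin (k + k))}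
    (h : p ⊆ p') : fa F I S J p t ⊆ fa F I S J p' t := by
  intro q hq t' h1 h2 h3
  exact hq t' h1 (h.trans h2) h3

theorem dc_le_bd (J f : Finset (Fin k)) (c : Nm τ N k L) : DC F I J f c ≤ Bd τ N := by
  unfold DC
  split_ifs with h
  · exact Nat.sInf_le (Set.mem_insert _ _)
  · exact Nat.zero_le _

/-- A piece with fewer atoms than the distance is in the free amalgam. -/
theorem mem_fa_of_lt {J f : Finset (Fin k)} {c : Nm τ N k L} (hc : c.1 ∩ f ⊆ J) {i : Fin 6}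
    {q : Str τ (Fin N) × (Fin N → Option (Fin (k + k)))}
    (hq : q ∈ rse (gs I c.1 f) (c.2.2.2 i)) (h : atc q < DC F I J f c) :
    q ∈ fa F I c.1 J (yC f c) (c.2.2.2 i) := by
  by_contra hn
  unfold DC at h
  rw [if_pos hc] at h
  refine absurd (Nat.sInf_le ?_) (not_le.2 h)
  exact Set.mem_insert_of_mem _ ⟨i, q, hq, hn, rfl⟩

end

theorem pf_DD2 (hEX1 : T_EX1) (hFAX : T_FAX) (hSPT : T_SPT) : T_DD2 := by
  intro τ N k L F I a₀ J h e c p hF hk hok hp hdiag hJh hJe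
  have hS := hok.sub
  have hne : Nonempty (Fin (k + k)) := ⟨⟨0, by omega⟩⟩
  by_cases hc0 : c.1 ∩ (h ∩ e) ⊆ J
  swap
  · have e1 : DC F I J (h ∩ e) c = 0 := if_neg hc0
    rw [e1, Nat.zero_min]
    exact Nat.zero_le _
  have hc1 : (exR F I e c p).1 ∩ h ⊆ J := by
    intro v hv
    change v ∈ (c.1 ∩ e) ∩ h at hv
    apply hc0
    simp only [Finset.mem_inter] at hv ⊢
    exact ⟨hv.1.1, hv.2, hv.1.2⟩
  have hfax := fun i => hFAX τ N k F I c.1 e p (c.2.2.2 i) hF hk hS hp (hok.mx i).1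
    (hdiag i).symm
  -- the smallest bad piece
  by_contra hlt
  rw [not_le] at hlt
  have hlt1 : DC F I J h (exR F I e c p) < DC F I J (h ∩ e) c := lt_of_lt_of_le hlt (min_le_left _ _)
  have hlt2 : DC F I J h (exR F I e c p) < DC F I J e c + 1 := lt_of_lt_of_le hlt (min_le_right _ _)
  have hbd := dc_le_bd (F := F) (I := I) J (h ∩ e) c
  obtain ⟨i, q, hq1, hq2, hq3⟩ : ∃ (i : Fin 6)
      (q : Str τ (Fin N) × (Fin N → Option (Fin (k + k)))),
      q ∈ rse (gs I (exR F I e c p).1 h) ((exR F I e c p).2.2.2 i) ∧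
      q ∉ fa F I (exR F I e c p).1 J (yC h (exR F I e c p)) ((exR F I e c p).2.2.2 i) ∧
      atc q = DC F I J h (exR F I e c p) := by
    have h1 : DC F I J h (exR F I e c p) ∈ insert (Bd τ N) {n | ∃ (i : Fin 6)
      (q : Str τ (Fin N) × (Fin N → Option (Fin (k + k)))),
      q ∈ rse (gs I (exR F I e c p).1 h) ((exR F I e c p).2.2.2 i) ∧
      q ∉ fa F I (exR F I e c p).1 J (yC h (exR F I e c p)) ((exR F I e c p).2.2.2 i) ∧
      atc q = n} := by
      have e1 : DC F I J h (exR F I e c p) = sInf (insert (Bd τ N) {n | ∃ (i : Fin 6)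
        (q : Str τ (Fin N) × (Fin N → Option (Fin (k + k)))),
        q ∈ rse (gs I (exR F I e c p).1 h) ((exR F I e c p).2.2.2 i) ∧
        q ∉ fa F I (exR F I e c p).1 J (yC h (exR F I e c p)) ((exR F I e c p).2.2.2 i) ∧
        atc q = n}) := if_pos hc1
      rw [e1]
      exact Nat.sInf_mem ⟨_, Set.mem_insert _ _⟩
    rcases h1 with h1 | h1
    · omega
    · exact h1
  change q ∈ rse (gs I (c.1 ∩ e) h) (fa F I c.1 e p (c.2.2.2 i)) at hq1
  apply hq2
  change q ∈ fa F I (c.1 ∩ e) J (yC h (exR F I e c p)) (fa F I c.1 e p (c.2.2.2 i))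
  -- `S ∩ e ⊆ J`
  have hSe : c.1 ∩ e ⊆ J := by
    by_contra hn
    have e1 : DC F I J e c = 0 := if_neg hn
    have h0 : atc q = 0 := by omega
    refine hq2 ?_
    intro t' ht' _ _
    exact mem_of_atc hne h0 ht'
  have hSeJ : c.1 ∩ e = c.1 ∩ J := by
    ext v
    simp only [Finset.mem_inter]
    constructor
    · rintro ⟨h1, h2⟩
      exact ⟨h1, hSe (Finset.mem_inter.2 ⟨h1, h2⟩)⟩
    · rintro ⟨h1, h2⟩
      exact ⟨h1, hJe h2⟩
  have hSJJ : c.1 ∩ e ∩ J = c.1 ∩ J := by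
    rw [hSeJ, Finset.inter_assoc, Finset.inter_self]
  have hgsJ : gs I (c.1 ∩ e) J = gs I c.1 J := by
    refine gs_congr fun v hv => ?_
    simp only [Finset.mem_inter]
    exact ⟨fun h1 => h1.1, fun h1 => ⟨h1, hJe hv⟩⟩
  have hgsJe : gs I c.1 J ⊆ gs I c.1 e := by
    unfold gs
    exact Finset.union_subset_union_left (Finset.image_subset_image
      (Finset.sdiff_subset_sdiff hJe (Finset.Subset.refl _)))
  intro t₂ ht₂ hy₂ hl₂
  have hy : yC h (exR F I e c p) = rse h p := by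
    change rse h (rs (rdp (c.1 ∩ e)) (fa F I c.1 e p (c.2.2.2 0))) = rse h p
    rw [(hfax 0).2.1]
  rw [hy, hSJJ] at hy₂
  have hlam : rse (gs I (c.1 ∩ e) J) (fa F I c.1 e p (c.2.2.2 i)) =
      rse (gs I c.1 J) (c.2.2.2 i) := by
    rw [hgsJ, ← rse_rse hgsJe, (hfax i).2.2.1, rse_rse hgsJe]
  rw [hlam] at hl₂
  rcases hSPT τ N k F I c.1 e p (c.2.2.2 i) hF hk hS hp (hok.mx i).1 (hdiag i).symm h q hq1 with
    ⟨q', g1, g2, g3⟩ | ⟨q', g1, g2, g3⟩
  · apply g3 t₂ ht₂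
    have h5 : q' ∈ fa F I c.1 J (yC (h ∩ e) c) (c.2.2.2 i) :=
      mem_fa_of_lt hc0 g1 (by rw [g2, hq3]; exact hlt1)
    refine h5 t₂ ht₂ ?_ hl₂
    have h6 : yC (h ∩ e) c = rse (h ∩ e) p := by
      change rse (h ∩ e) (rs (rdp c.1) (c.2.2.2 0)) = _
      rw [← rse_rse (Finset.inter_subset_right : h ∩ e ⊆ e), hdiag 0,
        rse_rse (Finset.inter_subset_right : h ∩ e ⊆ e)]
    rw [h6, ← rse_rse (Finset.inter_subset_left : h ∩ e ⊆ h)]
    exact rse_sub.trans hy₂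
  · have hdJ : rse J p = rse J (rs (rdp c.1) (c.2.2.2 i)) := by
      rw [← rse_rse hJe, ← hdiag i, rse_rse hJe]
    obtain ⟨f1, f2, f3, f4⟩ := hFAX τ N k F I c.1 J p (c.2.2.2 i) hF hk hS hp (hok.mx i).1 hdJ
    have h5 : q' ∈ fa F I c.1 J (yC e c) (c.2.2.2 i) :=
      mem_fa_of_lt hSe g1 (by omega)
    have h6 : yC e c = rse e p := hdiag 0
    rw [h6] at h5
    have h7 : q' ∈ fa F I c.1 J p (c.2.2.2 i) := fa_mono rse_sub h5
    have h8 : q ∈ fa F I c.1 J p (c.2.2.2 i) := by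
      refine g3 _ f1 ?_ h7
      rw [hSeJ, f2]
    refine f4 h t₂ hJh ht₂ hy₂ hl₂ ⟨h8, ?_⟩
    rw [← hSeJ]
    exact hq1.2

end Pool.Agent.H76.GX
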