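import Pool.Agent.H76.GX.EX1

/-!
# GMSNP: free extensions of equal configurations are equal
-/

set_option autoImplicit false
set_option linter.unusedVariables false

namespace Pool.Agent.H76.GX

open Pool.Agent.H68.BP Pool.Agent.H58.SF Pool.Agent.H53.GC Pool.Agent.H53.GR Pool.Agent.H53.GM
open Pool.Agent.H53.GX (ps cst rdp Nm CfX lbx kdx EqX RX)
open Classical

section

variable {τ σ : Sig} {N k L : ℕ}

theorem pat_ix0 {X : Type} (r : Fin 3) (x y : X) : pat r x y (ix r 0) = x := by
  fin_cases r <;> rfl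

theorem pat_ix1 {X : Type} (r : Fin 3) (x y : X) : pat r x y (ix r 1) = y := by
  fin_cases r <;> rfl

theorem gs_mono {I S J e : Finset (Fin k)} (h : J ⊆ e) : gs I S J ⊆ gs I S e := by
  unfold gs
  refine Finset.union_subset_union_left ?_
  exact Finset.image_subset_image (Finset.sdiff_subset_sdiff h (Finset.Subset.refl _))

theorem ex2_le (hFAX : T_FAX) {F : Set (Str τ (Fin N))} {I S S' J e : Finset (Fin k)}
    {p p' : Ty τ N (Fin k)} {t t' : Ty τ N (Fin (k + k))} (hF : Hyp τ N F) (hk : 1 ≤ k)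
    (hS : S ⊆ I) (hS' : S' ⊆ I) (hJe : J ⊆ e) (hSJ : S ∩ J = S' ∩ J)
    (hgs : gs I S J = gs I S' J) (hp : Rl F p) (hp' : Rl F p') (ht : Rl F t) (ht' : Rl F t')
    (h : rse J p = rse J (rs (rdp S) t)) (h' : rse J p' = rse J (rs (rdp S') t'))
    (htt : rse (gs I S J) t = rse (gs I S J) t') (hpp : rse e p = rse e p') :
    rse (gs I (S ∩ J) e) (fa F I S J p t) ⊆ rse (gs I (S ∩ J) e) (fa F I S' J p' t') := by
  have hA := hFAX τ N k F I S J p t hF hk hS hp ht h
  have hB := hFAX τ N k F I S' J p' t' hF hk hS' hp' ht' h'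
  have h1 := hA.2.2.2 e (fa F I S' J p' t') hJe hB.1 (by
    rw [hpp, hSJ, hB.2.1]
    exact fun q hq => hq.1) (by
    rw [htt, hgs, ← hB.2.2.1]
    exact fun q hq => hq.1)
  exact fun q hq => ⟨h1 hq, hq.2⟩

theorem ex2_eq (hFAX : T_FAX) {F : Set (Str τ (Fin N))} {I S S' J e : Finset (Fin k)}
    {p p' : Ty τ N (Fin k)} {t t' : Ty τ N (Fin (k + k))} (hF : Hyp τ N F) (hk : 1 ≤ k)
    (hS : S ⊆ I) (hS' : S' ⊆ I) (hJe : J ⊆ e) (hSJ : S ∩ J = S' ∩ J)
    (hgs : gs I S J = gs I S' J) (hp : Rl F p) (hp' : Rl F p') (ht : Rl F t) (ht' : Rl F t')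
    (h : rse J p = rse J (rs (rdp S) t)) (h' : rse J p' = rse J (rs (rdp S') t'))
    (htt : rse (gs I S J) t = rse (gs I S J) t') (hpp : rse e p = rse e p') :
    rse (gs I (S ∩ J) e) (fa F I S J p t) = rse (gs I (S ∩ J) e) (fa F I S' J p' t') := by
  refine Set.Subset.antisymm
    (ex2_le hFAX hF hk hS hS' hJe hSJ hgs hp hp' ht ht' h h' htt hpp) ?_
  have h1 := ex2_le hFAX hF hk hS' hS hJe hSJ.symm hgs.symm hp' hp ht' ht h' h
    (by rw [← hgs]; exact htt.symm) hpp.symm
  rw [← hSJ] at h1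
  exact h1

end

theorem pf_EX2 (hFAX : T_FAX) : T_EX2 := by
  intro τ N k L F I a₀ J e c c' p p' hF hk hL hc hc' hJe hp hp' h h' E hpe
  have hSJ : c.1 ∩ J = c'.1 ∩ J := by
    ext v
    simp only [Finset.mem_inter]
    constructor
    · rintro ⟨h1, h2⟩
      exact ⟨(E.1.sS v (hJe h2)).1 h1, h2⟩
    · rintro ⟨h1, h2⟩
      exact ⟨(E.1.sS v (hJe h2)).2 h1, h2⟩
  have hgs : gs I c.1 J = gs I c'.1 J := gs_congr fun v hv => E.1.sS v (hJe hv)
  have hgs' : gs I c.1 e = gs I c'.1 e := gs_congr E.1.sS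
  have hes : e \ c'.1 = e \ c.1 := by
    ext v
    simp only [Finset.mem_sdiff]
    constructor
    · rintro ⟨h1, h2⟩
      exact ⟨h1, fun h3 => h2 ((E.1.sS v h1).1 h3)⟩
    · rintro ⟨h1, h2⟩
      exact ⟨h1, fun h3 => h2 ((E.1.sS v h1).2 h3)⟩
  -- the information in the kind of the guard
  have hγ : pts (lbx c.2.2.1) (ps (e \ c.1)) = pts (lbx c'.2.2.1) (ps (e \ c.1)) :=
    pts_lbx fun v hv => E.2 v (Finset.mem_sdiff.1 hv).1
  have hsk := E.1.sk
  rw [hes] at hsk
  unfold Pool.Agent.H53.GX.kdx kd at hsk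
  rw [← hγ] at hsk
  have hsub : ∀ (x : Ty τ N (Fin (k + k))),
      rse (gs I c.1 J) (rse (gs I c.1 e) x) = rse (gs I c.1 J) x :=
    fun x => rse_rse (gs_mono hJe) x
  have K : (e \ c.1 = ∅ ∧ ∀ i j, rse (gs I c.1 J) (c.2.2.2 i) = rse (gs I c.1 J) (c'.2.2.2 j)) ∨
      (pts (lbx c.2.2.1) (ps (e \ c.1)) ≠ ∅ ∧
      (¬ AS (pts (lbx c.2.2.1) (ps (e \ c.1))) → ∀ i,
        rse (gs I c.1 J) (c.2.2.2 i) = rse (gs I c.1 J) (c'.2.2.2 i)) ∧
      (¬ AZ (pts (lbx c.2.2.1) (ps (e \ c.1))) → ∀ d,
        rse (gs I c.1 J) (c.2.2.2 (ix c.2.1 d)) =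
          rse (gs I c.1 J) (c'.2.2.2 (ix c'.2.1 d)))) := by
    by_cases h0 : e \ c.1 = ∅
    · refine Or.inl ⟨h0, fun i j => ?_⟩
      have h1 : gs I c.1 J = cst I := by
        have h2 : J \ c.1 = ∅ := by
          rw [← Finset.subset_empty, ← h0]
          exact Finset.sdiff_subset_sdiff hJe (Finset.Subset.refl _)
        unfold gs
        rw [h2]
        simp [Pool.Agent.H53.GX.ps]
      rw [h1, (hc.mx i).2, (hc'.mx j).2]
    · have h1 : pts (lbx c.2.2.1) (ps (e \ c.1)) ≠ ∅ := by
        intro h2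
        apply h0
        have h3 : ps (e \ c.1) = ∅ := by
          rw [← Pool.Agent.H29.GM.vr_pts (lbx c.2.2.1) (ps (e \ c.1)), h2]
          rfl
        exact Finset.image_eq_empty.1 h3
      refine Or.inr ⟨h1, ?_, ?_⟩
      · intro h2 i
        have h3 := congrFun (congrArg Prod.fst hsk) i
        unfold rsG at h3
        rw [if_neg h1] at h3
        simp only [if_neg h2, if_neg h1] at h3
        rw [vr_lbx] at h3
        rw [← hsub, h3, hsub]
      · intro h2 d
        have h3 := congrFun (congrArg Prod.snd hsk) d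
        unfold rsG at h3
        rw [if_neg h1] at h3
        simp only [if_neg h2, if_neg h1] at h3
        rw [vr_lbx] at h3
        rw [← hsub, h3, hsub]
  -- the path is determined by a vertex in a region of the paths
  have hr : ∀ v ∈ e, ∀ (t : Fin L) (r : Fin 3), c.2.2.1 v = some (some (t, r)) →
      c.2.1 = c'.2.1 := by
    intro v hv t r h1
    have h2 := hc.reg v
    have h3 := hc'.reg v
    rw [h1] at h2
    rw [← E.2 v hv, h1] at h3
    exact (show r = c.2.1 from h2).symm.trans (show r = c'.2.1 from h3)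
  have hlx : ∀ (c : Nm τ N k L) v, lbx c.2.2.1 (Fin.castAdd k v) = c.2.2.1 v := fun c v =>
    Fin.addCases_left v
  have hpt : ∀ (s : Finset (Fin k)) (x : Fin (k + k) × Rg L),
      x ∈ pts (lbx c.2.2.1) (ps s) ↔ ∃ v ∈ s, x = (Fin.castAdd k v, c.2.2.1 v) := by
    intro s x
    rw [Pool.Agent.H29.GM.mem_pts]
    constructor
    · rintro ⟨h1, h2⟩
      obtain ⟨v, hv, h3⟩ := Finset.mem_image.1 h1
      refine ⟨v, hv, Prod.ext h3.symm ?_⟩
      rw [h2, ← h3, hlx]
    · rintro ⟨v, hv, rfl⟩
      exact ⟨Finset.mem_image_of_mem _ hv, (hlx c v).symm⟩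
  refine ⟨⟨?_, fun v hv _ => E.2 v hv, ?_⟩, E.2⟩
  · intro v hv
    change v ∈ c.1 ∩ J ↔ v ∈ c'.1 ∩ J
    rw [hSJ]
  · change kdx I a₀ (exR F I J c p) (e \ (c.1 ∩ J)) = kdx I a₀ (exR F I J c' p') (e \ (c'.1 ∩ J))
    rw [← hSJ]
    unfold Pool.Agent.H53.GX.kdx kd
    change rsG (cst I) a₀ (pts (lbx c.2.2.1) (ps (e \ (c.1 ∩ J)))) _ =
      rsG (cst I) a₀ (pts (lbx c'.2.2.1) (ps (e \ (c.1 ∩ J)))) _
    rw [← pts_lbx (c := c) (c' := c') (s := e \ (c.1 ∩ J))
      fun v hv => E.2 v (Finset.mem_sdiff.1 hv).1]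
    refine rsG_ext ?_ ?_
    · intro hα hAS i
      rw [vr_lbx]
      refine ex2_eq hFAX hF hk hc.sub hc'.sub hJe hSJ hgs hp hp' (hc.mx i).1 (hc'.mx i).1
        (h i).symm (h' i).symm ?_ hpe
      rcases K with ⟨_, K1⟩ | ⟨K0, K6, K2⟩
      · exact K1 i i
      · by_cases hg : AS (pts (lbx c.2.2.1) (ps (e \ c.1)))
        · -- a vertex of the region `S` and a vertex outside
          obtain ⟨v, hv, hv2⟩ : ∃ v ∈ e \ (c.1 ∩ J), c.2.2.1 v ≠ some none := by
            by_contra hcon
            push Not at hcon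
            refine hAS ⟨Finset.nonempty_iff_ne_empty.2 hα, fun x hx => ?_⟩
            obtain ⟨v, hv, rfl⟩ := (hpt _ x).1 hx
            exact hcon v hv
          obtain ⟨x, hx⟩ := hg.1
          obtain ⟨w, hw, hxw⟩ := (hpt _ x).1 hx
          have hw2 : c.2.2.1 w = some none := by
            have := hg.2 x hx
            rw [hxw] at this
            exact this
          have hadj := hc.adj w v
          rw [hw2] at hadj
          have hlev : L ≤ lev (c.2.2.1 v) := by
            have h1 : L + 1 ≤ lev (c.2.2.1 v) + 1 := hadj.1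
            omega
          have hw3 : w ∈ e := (Finset.mem_sdiff.1 hw).1
          rcases hlb : c.2.2.1 v with _ | _ | ⟨t, r⟩
          · rw [hlb] at hlev
            have : L ≤ 0 := hlev
            omega
          · exact absurd hlb hv2
          · have hrr := hr v (Finset.mem_sdiff.1 hv).1 t r hlb
            have hAZ : ¬ AZ (pts (lbx c.2.2.1) (ps (e \ c.1))) := by
              intro h1
              have := h1.2 x hx
              rw [hxw] at this
              change c.2.2.1 w = none at this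
              rw [hw2] at this
              exact absurd this (by simp)
            have K2' := K2 hAZ
            rcases hc.bin with h1 | ⟨P, P', h1⟩
            · have := h1 w
              rw [hw2] at this
              exact absurd this (by simp)
            rcases hc'.bin with h2 | ⟨P₁, P₁', h2⟩
            · have := h2 w
              rw [← E.2 w hw3, hw2] at this
              exact absurd this (by simp)
            have e0 := K2' 0
            have e1 := K2' 1
            rw [h1, h2] at e0 e1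
            rw [pat_ix0, pat_ix0] at e0
            rw [pat_ix1, pat_ix1] at e1
            rw [h1, h2, pat_map (rse (gs I c.1 J)), pat_map (rse (gs I c.1 J)), e0, e1, hrr]
        · exact K6 hg i
    · intro hα hAZ d
      rw [vr_lbx]
      refine ex2_eq hFAX hF hk hc.sub hc'.sub hJe hSJ hgs hp hp' (hc.mx _).1 (hc'.mx _).1
        (h _).symm (h' _).symm ?_ hpe
      rcases K with ⟨_, K1⟩ | ⟨K0, K6, K2⟩
      · exact K1 _ _
      · by_cases hg : AZ (pts (lbx c.2.2.1) (ps (e \ c.1)))
        · obtain ⟨v, hv, hv2⟩ : ∃ v ∈ e \ (c.1 ∩ J), c.2.2.1 v ≠ none := by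
            by_contra hcon
            push Not at hcon
            refine hAZ ⟨Finset.nonempty_iff_ne_empty.2 hα, fun x hx => ?_⟩
            obtain ⟨v, hv, rfl⟩ := (hpt _ x).1 hx
            exact hcon v hv
          obtain ⟨x, hx⟩ := hg.1
          obtain ⟨w, hw, hxw⟩ := (hpt _ x).1 hx
          have hw2 : c.2.2.1 w = none := by
            have := hg.2 x hx
            rw [hxw] at this
            exact this
          have hadj := hc.adj v w
          rw [hw2] at hadj
          have hlev : lev (c.2.2.1 v) ≤ 1 := hadj.1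
          rcases hlb : c.2.2.1 v with _ | _ | ⟨t, r⟩
          · exact absurd hlb hv2
          · rw [hlb] at hlev
            have : L + 1 ≤ 1 := hlev
            omega
          · have hrr := hr v (Finset.mem_sdiff.1 hv).1 t r hlb
            have hAS : ¬ AS (pts (lbx c.2.2.1) (ps (e \ c.1))) := by
              intro h1
              have := h1.2 x hx
              rw [hxw] at this
              change c.2.2.1 w = some none at this
              rw [hw2] at this
              exact absurd this (by simp)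
            have := K6 hAS (ix c.2.1 d)
            change rse (gs I c.1 J) (c.2.2.2 (ix c.2.1 d)) =
              rse (gs I c.1 J) (c'.2.2.2 (ix c'.2.1 d))
            rw [this, hrr]
        · exact K2 hg d

end Pool.Agent.H76.GX
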