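import Pool.Agent.H76.GX.Abs

/-!
# The correction lemma
-/

set_option autoImplicit false
set_option linter.unusedVariables false

namespace Pool.Agent.H76.GX

open Classical

section

variable {k : ℕ} {X C 𝓛 : Type} {rx : Finset (Fin k) → X → X} {R : 𝓛 → X → Prop} {l₀ : 𝓛}
  {eq : Finset (Fin k) → C → C → Prop}

theorem nt_iterate {θ : X → X} (h : Nt rx R l₀ θ) (n : ℕ) : Nt rx R l₀ (θ^[n]) := by
  induction n with
  | zero => exact ⟨fun l p hp => hp, fun e p p' _ _ hpp => hpp⟩
  | succ n ih =>
    rw [Function.iterate_succ']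
    exact ⟨fun l p hp => h.rel l _ (ih.rel l p hp), fun e p p' hp hp' hpp =>
      h.nat e _ _ (ih.rel _ _ hp) (ih.rel _ _ hp') (ih.nat e p p' hp hp' hpp)⟩

theorem cor_id : Cor rx R l₀ eq (fun (_ : C) p => p) :=
  ⟨fun _ _ _ hp => hp, fun _ _ _ _ _ _ _ _ h => h⟩

theorem cor_comp {θ η : C → X → X} (hθ : Cor rx R l₀ eq θ) (hη : Cor rx R l₀ eq η) :
    Cor rx R l₀ eq (fun c p => θ c (η c p)) :=
  ⟨fun c l p hp => hθ.nt c l _ (hη.nt c l p hp), fun e c c' p p' hc hp hp' hpp =>
    hθ.nat e c c' _ _ hc (hη.nt _ _ _ hp) (hη.nt _ _ _ hp') (hη.nat e c c' p p' hc hp hp' hpp)⟩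

theorem cor_iterate {θ : C → X → X} (hθ : Cor rx R l₀ eq θ) (n : ℕ) :
    Cor rx R l₀ eq (fun c => (θ c)^[n]) := by
  induction n with
  | zero => exact cor_id
  | succ n ih =>
    have h := cor_comp hθ ih
    have h2 : (fun c => (θ c)^[n + 1]) = (fun c p => θ c ((θ c)^[n] p)) := by
      funext c p
      rw [Function.iterate_succ_apply']
    rw [h2]
    exact h

theorem cor_nt (hrefl : ∀ e c, eq e c c) {θ : C → X → X} (hθ : Cor rx R l₀ eq θ) (c : C) :
    Nt rx R l₀ (θ c) :=
  ⟨hθ.nt c, fun e p p' hp hp' hpp => hθ.nat e c c p p' (hrefl e c) hp hp' hpp⟩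

/-- Natural maps of a core have a common finite order. -/
theorem inv_main : T_INV := by
  intro k X 𝓛 _ rx R l₀ hB hC
  -- natural maps are injective on R l₀
  have hinj : ∀ θ, Nt rx R l₀ θ → ∀ p p', R l₀ p → R l₀ p' → θ p = θ p' → p = p' := by
    intro θ hθ p p' hp hp' h
    have := hC θ hθ Finset.univ p p' hp hp' (by rw [h])
    rwa [hB.un, hB.un] at this
  have : Fintype {p // R l₀ p} := Fintype.ofFinite _
  refine ⟨(Fintype.card (Equiv.Perm {p // R l₀ p})), Fintype.card_pos, ?_⟩
  intro θ hθ p hp
  let g : {p // R l₀ p} → {p // R l₀ p} := fun q => ⟨θ q.1, hθ.rel _ _ q.2⟩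
  have hg : Function.Injective g := by
    intro a b hab
    exact Subtype.ext (hinj θ hθ _ _ a.2 b.2 (congrArg Subtype.val hab))
  let π : Equiv.Perm {p // R l₀ p} := Equiv.ofBijective g (Finite.injective_iff_bijective.1 hg)
  have hπ : π ^ Fintype.card (Equiv.Perm {p // R l₀ p}) = 1 := pow_card_eq_one
  have hit : ∀ n (q : {p // R l₀ p}), ((π ^ n) q).1 = θ^[n] q.1 := by
    intro n
    induction n with
    | zero => intro q; rfl
    | succ n ih =>
      intro q
      rw [pow_succ', Function.iterate_succ_apply', ← ih q]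
      rfl
  rw [← hit _ ⟨p, hp⟩, hπ]
  rfl

end

/-- the relative form of the correction lemma -/
theorem rc_main (k : ℕ) (X C 𝓛 : Type) [Finite X] (rx : Finset (Fin k) → X → X)
    (R : 𝓛 → X → Prop) (l₀ : 𝓛)
    (eq : Finset (Fin k) → C → C → Prop) (dg : Finset (Fin k) → C → Prop)
    (y : Finset (Fin k) → C → X) (ext : Finset (Fin k) → C → X → C) (at' : 𝓛 → C → Prop)
    (rk : Finset (Fin k) → Finset (Fin k) → C → ℕ)
    (jc : Finset (Fin k) → Finset (Fin k) → C → Finset (Fin k))
    (hB : PB rx R l₀) (hC : Core rx R l₀) (hA : CA rx R l₀ eq dg y ext at')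
    (hR : RkA rx R l₀ eq dg y ext rk jc) :
    ∀ (d : ℕ) (J : Finset (Fin k)), (Finset.univ \ J).card < d →
    ∀ (DD : Finset (Fin k) → C → Prop),
      (∀ f c, DD f c → J ⊆ f ∧ dg f c) → (∀ f c c', DD f c → eq f c c' → DD f c') →
      (∀ h f c, DD f c → J ⊆ h → h ⊆ f → DD h c) →
      (∀ f c p, DD f c → R l₀ p → rx f p = y f c → DD Finset.univ (ext f c p)) →
    ∀ O : C → X, OA rx R l₀ eq at' O →
      (∀ f c h, DD f c → h ⊆ f → ¬ J ⊆ h → rx h (O c) = y h c) →
    ∃ θ : C → X → X, Cor rx R l₀ eq θ ∧
      (∀ f c, (∀ j, J ⊆ j → j ⊆ f → ¬ DD j c) → ∀ p, R l₀ p → rx f (θ c p) = rx f p) ∧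
      ∀ f c, DD f c → rx f (θ c (O c)) = y f c := by
  obtain ⟨m, hm1, hm⟩ := inv_main k X 𝓛 rx R l₀ hB hC
  intro d
  induction d with
  | zero => intro J hJ; omega
  | succ d IH =>
    intro J hJd DD hsub heqc hres hexc O hO hcl
    -- outputs after a correction
    have hOA : ∀ (P : C → X) (θ : C → X → X), OA rx R l₀ eq at' P → Cor rx R l₀ eq θ →
        OA rx R l₀ eq at' (fun c => θ c (P c)) := by
      intro P θ hP hθ
      exact ⟨fun l c hc => hθ.nt c l _ (hP.o1 l c hc), fun c => hθ.nt c l₀ _ (hP.oat c),
        fun e c c' hc => hθ.nat e c c' _ _ hc (hP.oat c) (hP.oat c') (hP.o2 e c c' hc)⟩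
    -- Step 1
    let Θ : C → X → X := fun c p => if DD J c ∧ rx J p = y J c then O (ext J c p) else p
    have hΘfix : ∀ f c p, R l₀ p → ¬ J ⊆ f → rx f (Θ c p) = rx f p := by
      intro f c p hp hf
      by_cases h : DD J c ∧ rx J p = y J c
      · have e0 : Θ c p = O (ext J c p) := if_pos h
        rw [e0]
        have h1 := hexc J c p h.1 hp h.2
        have h2 := hcl Finset.univ (ext J c p) f h1 (Finset.subset_univ _) hf
        obtain ⟨-, h3, h4⟩ := hA.e1 J c p (hsub J c h.1).2 hp h.2
        rw [h2, ← hA.ym f Finset.univ _ (Finset.subset_univ _) h3, h4]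
      · have e0 : Θ c p = p := if_neg h
        rw [e0]
    have hΘcor : Cor rx R l₀ eq Θ := by
      constructor
      · intro c l p hp
        by_cases h : DD J c ∧ rx J p = y J c
        · have e0 : Θ c p = O (ext J c p) := if_pos h
          rw [e0]
          exact hO.o1 l _ (hA.e3 J c l p (hsub J c h.1).2 hp h.2)
        · have e0 : Θ c p = p := if_neg h
          rw [e0]
          exact hp
      · intro e c c' p p' hc hp hp' hpp
        by_cases hJe : J ⊆ e
        · have hcJ : eq J c c' := hA.mono J e c c' hJe hc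
          have hrJ : rx J p = rx J p' := by
            have : rx J (rx e p) = rx J (rx e p') := by rw [hpp]
            rw [hB.rr, hB.rr, Finset.inter_eq_left.2 hJe] at this
            exact this
          by_cases h : DD J c ∧ rx J p = y J c
          · have hdg := (hsub J c h.1).2
            have hy : y J c = y J c' := hA.ye J c c' hcJ hdg
            have h' : DD J c' ∧ rx J p' = y J c' :=
              ⟨heqc J c c' h.1 hcJ, by rw [← hrJ, h.2, hy]⟩
            have e0 : Θ c p = O (ext J c p) := if_pos h
            have e0' : Θ c' p' = O (ext J c' p') := if_pos h'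
            rw [e0, e0']
            exact hO.o2 e _ _ (hA.e2 J e c c' p p' hJe hdg hp h.2 hp' h'.2 hc hpp)
          · have h' : ¬ (DD J c' ∧ rx J p' = y J c') := by
              rintro ⟨h1, h2⟩
              have hdg := (hsub J c' h1).2
              have hcJ' := hA.symm J c c' hcJ
              exact h ⟨heqc J c' c h1 hcJ', by
                rw [hrJ, h2, hA.ye J c' c hcJ' hdg]⟩
            have e0 : Θ c p = p := if_neg h
            have e0' : Θ c' p' = p' := if_neg h'
            rw [e0, e0']
            exact hpp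
        · rw [hΘfix e c p hp hJe, hΘfix e c' p' hp' hJe]
          exact hpp
    have hΘsup : ∀ f c, (∀ j, J ⊆ j → j ⊆ f → ¬ DD j c) → ∀ p, R l₀ p →
        rx f (Θ c p) = rx f p := by
      intro f c h p hp
      by_cases hJf : J ⊆ f
      · have h1 := h J (Finset.Subset.refl _) hJf
        have e0 : Θ c p = p := if_neg (fun hh => h1 hh.1)
        rw [e0]
      · exact hΘfix f c p hp hJf
    have hΘnt : ∀ c, Nt rx R l₀ (Θ c) := fun c => cor_nt hA.refl hΘcor c
    -- the outputs on J are right
    have hJright : ∀ c, DD J c → rx J (O c) = y J c := by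
      intro c hc
      obtain ⟨p, hp, hpy⟩ := hA.yx J c (hsub J c hc).2
      have hq : Θ c p = O (ext J c p) := if_pos ⟨hc, hpy⟩
      obtain ⟨h1, -, -⟩ := hA.e1 J c p (hsub J c hc).2 hp hpy
      have h2 : rx J (Θ c p) = rx J (O c) := by
        rw [hq]
        exact hO.o2 J _ _ h1
      by_contra hne
      have h3 : Θ c (Θ c p) = Θ c p := if_neg (fun hh => hne (by rw [← h2]; exact hh.2))
      have h4 := hC (Θ c) (hΘnt c) Finset.univ (Θ c p) p ((hΘnt c).rel _ _ hp) hp (by rw [h3])
      rw [hB.un, hB.un] at h4
      rw [← h2, h4] at hne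
      exact hne hpy
    -- the inverse correction
    let η : C → X → X := fun c => (Θ c)^[m - 1]
    have hηcor : Cor rx R l₀ eq η := cor_iterate hΘcor (m - 1)
    have hηΘ : ∀ c p, R l₀ p → η c (Θ c p) = p := by
      intro c p hp
      have h1 : (Θ c)^[m] p = p := hm (Θ c) (hΘnt c) p hp
      have h2 : m = (m - 1) + 1 := by omega
      rw [h2, Function.iterate_succ_apply] at h1
      exact h1
    have hηsup : ∀ f c, (∀ j, J ⊆ j → j ⊆ f → ¬ DD j c) → ∀ p, R l₀ p →
        rx f (η c p) = rx f p := by
      intro f c h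
      have : ∀ n : ℕ, ∀ p, R l₀ p → rx f ((Θ c)^[n] p) = rx f p := by
        intro n
        induction n with
        | zero => intro p _; rfl
        | succ n ih =>
          intro p hp
          rw [Function.iterate_succ_apply, ih (Θ c p) ((hΘnt c).rel _ _ hp)]
          exact hΘsup f c h p hp
      exact this (m - 1)
    have hbase : ∀ f c, DD f c → rk J f c = 0 → rx f (η c (O c)) = y f c := by
      intro f c hf h0
      obtain ⟨hJf, hdg⟩ := hsub f c hf
      obtain ⟨p, hp, hpy⟩ := hA.yx f c hdg
      have hJc := hres J f c hf (Finset.Subset.refl _) hJf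
      have hpJ : rx J p = y J c := by
        have : rx J (rx f p) = rx J (y f c) := by rw [hpy]
        rw [hB.rr, Finset.inter_eq_left.2 hJf, hA.ym J f c hJf hdg] at this
        exact this
      have h1 : eq f c (ext J c p) := hR.k1 J f c p hJf hdg hp hpy h0
      have h2 : Θ c p = O (ext J c p) := if_pos ⟨hJc, hpJ⟩
      have h3 : rx f (O c) = rx f (Θ c p) := by
        rw [h2]
        exact hO.o2 f _ _ h1
      have h4 : rx f (η c (O c)) = rx f (η c (Θ c p)) :=
        hηcor.nat f c c _ _ (hA.refl f c) (hO.oat c) (hΘcor.nt c _ _ hp) h3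
      rw [h4, hηΘ c p hp, hpy]
    -- corrections keep cleanness
    have hclean : ∀ (P : C → X) (θ : C → X → X), OA rx R l₀ eq at' P →
        (∀ f c h, DD f c → h ⊆ f → ¬ J ⊆ h → rx h (P c) = y h c) →
        (∀ f c, (∀ j, J ⊆ j → j ⊆ f → ¬ DD j c) → ∀ p, R l₀ p → rx f (θ c p) = rx f p) →
        ∀ f c h, DD f c → h ⊆ f → ¬ J ⊆ h → rx h (θ c (P c)) = y h c := by
      intro P θ hP hPc hθ f c h hf hhf hJh
      rw [hθ h c (fun j hj hjh => absurd (hj.trans hjh) hJh) _ (hP.oat c)]
      exact hPc f c h hf hhf hJh
    -- Step 2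
    have key : ∀ n : ℕ, ∃ θ : C → X → X, Cor rx R l₀ eq θ ∧
        (∀ f c, (∀ j, J ⊆ j → j ⊆ f → ¬ DD j c) → ∀ p, R l₀ p → rx f (θ c p) = rx f p) ∧
        ∀ f c, DD f c → rk J f c ≤ n → rx f (θ c (O c)) = y f c := by
      intro n
      induction n with
      | zero =>
        exact ⟨η, hηcor, hηsup, fun f c hf h => hbase f c hf (by omega)⟩
      | succ n ihn =>
        -- over the sets j
        have inner : ∀ T : Finset (Finset (Fin k)), ∃ θ : C → X → X, Cor rx R l₀ eq θ ∧
            (∀ f c, (∀ j, J ⊆ j → j ⊆ f → ¬ DD j c) → ∀ p, R l₀ p →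
              rx f (θ c p) = rx f p) ∧
            (∀ f c, DD f c → rk J f c ≤ n → rx f (θ c (O c)) = y f c) ∧
            ∀ f c, DD f c → rk J f c = n + 1 → jc J f c ∈ T → rx f (θ c (O c)) = y f c := by
          intro T
          induction T using Finset.induction_on with
          | empty =>
            obtain ⟨θ, h1, h2, h3⟩ := ihn
            exact ⟨θ, h1, h2, h3, fun f c _ _ h => absurd h (Finset.notMem_empty _)⟩
          | insert j T hjT ihT =>
            obtain ⟨θ, h1, h2, h3, h4⟩ := ihT
            by_cases hJj : J ⊂ j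
            · let P : C → X := fun c => θ c (O c)
              have hP : OA rx R l₀ eq at' P := hOA O θ hO h1
              have hPc := hclean O θ hO hcl h2
              let DD' : Finset (Fin k) → C → Prop := fun f c =>
                DD f c ∧ j ⊆ f ∧ rk J f c = n + 1 ∧ jc J f c = j
              have hcard : (Finset.univ \ j).card < d := by
                have h5 : (Finset.univ \ j).card < (Finset.univ \ J).card := by
                  apply Finset.card_lt_card
                  rw [Finset.ssubset_iff_of_subset
                    (Finset.sdiff_subset_sdiff (Finset.Subset.refl _) hJj.1)]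
                  obtain ⟨x, hx, hx'⟩ := Finset.exists_of_ssubset hJj
                  exact ⟨x, by simp [hx'], by simp [hx]⟩
                omega
              obtain ⟨ψ, g1, g2, g3⟩ := IH j hcard DD'
                (fun f c h => ⟨h.2.1, (hsub f c h.1).2⟩)
                (by
                  rintro f c c' ⟨q1, q2, q3, q4⟩ hcc
                  obtain ⟨hJf, hdg⟩ := hsub f c q1
                  obtain ⟨r1, r2⟩ := hR.req J f c c' hJf hdg hcc
                  exact ⟨heqc f c c' q1 hcc, q2, by rw [← r1]; exact q3, by rw [← r2]; exact q4⟩)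
                (by
                  rintro h f c ⟨q1, q2, q3, q4⟩ hjh hhf
                  obtain ⟨hJf, hdg⟩ := hsub f c q1
                  obtain ⟨r1, r2⟩ := (hR.k3 J h f c (hJj.1.trans hjh) hhf hdg).1
                    (by rw [q4]; exact hjh)
                  exact ⟨hres h f c q1 (hJj.1.trans hjh) hhf, hjh, by rw [r1]; exact q3,
                    by rw [r2]; exact q4⟩)
                (by
                  rintro f c p ⟨q1, q2, q3, q4⟩ hp hpy
                  obtain ⟨hJf, hdg⟩ := hsub f c q1
                  obtain ⟨r1, r2⟩ := hR.k4 J f c p hJf hdg hp hpy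
                  exact ⟨hexc f c p q1 hp hpy, Finset.subset_univ _, by rw [r1]; exact q3,
                    by rw [r2]; exact q4⟩)
                P hP
                (by
                  rintro f c h ⟨q1, q2, q3, q4⟩ hhf hjh
                  obtain ⟨hJf, hdg⟩ := hsub f c q1
                  by_cases hJh : J ⊆ h
                  · have r1 := (hR.k3 J h f c hJh hhf hdg).2 (by rw [q4]; exact hjh)
                    exact h3 h c (hres h f c q1 hJh hhf) (by omega)
                  · exact hPc f c h q1 hhf hJh)
              have g2' : ∀ f c, (∀ i, J ⊆ i → i ⊆ f → ¬ DD' i c) → ∀ p, R l₀ p →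
                  rx f (ψ c p) = rx f p := by
                intro f c hh p hp
                exact g2 f c (fun i hi hif => hh i (hJj.1.trans hi) hif) p hp
              refine ⟨fun c p => ψ c (θ c p), cor_comp g1 h1, ?_, ?_, ?_⟩
              · intro f c hh p hp
                rw [g2' f c (fun i hi hif h5 => hh i hi hif h5.1) _ (h1.nt c _ _ hp)]
                exact h2 f c hh p hp
              · intro f c hf hrk
                obtain ⟨hJf, hdg⟩ := hsub f c hf
                have h5 : ∀ i, J ⊆ i → i ⊆ f → ¬ DD' i c := by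
                  rintro i hi hif ⟨q1, q2, q3, q4⟩
                  have r := hR.k3 J i f c hi hif hdg
                  by_cases h6 : jc J f c ⊆ i
                  · have := (r.1 h6).1
                    omega
                  · have := r.2 h6
                    omega
                dsimp only
                rw [g2' f c h5 _ (hP.oat c)]
                exact h3 f c hf hrk
              · intro f c hf hrk hjc
                obtain ⟨hJf, hdg⟩ := hsub f c hf
                rcases Finset.mem_insert.1 hjc with h6 | h6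
                · have h7 := hR.k2 J f c hJf hdg (by omega)
                  exact g3 f c ⟨hf, by rw [← h6]; exact h7.2, hrk, h6⟩
                · have h5 : ∀ i, J ⊆ i → i ⊆ f → ¬ DD' i c := by
                    rintro i hi hif ⟨q1, q2, q3, q4⟩
                    have r := hR.k3 J i f c hi hif hdg
                    by_cases h8 : jc J f c ⊆ i
                    · have := (r.1 h8).2
                      rw [q4] at this
                      rw [← this] at h6
                      exact hjT h6
                    · have := r.2 h8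
                      omega
                  dsimp only
                  rw [g2' f c h5 _ (hP.oat c)]
                  exact h4 f c hf hrk h6
            · refine ⟨θ, h1, h2, h3, ?_⟩
              intro f c hf hrk hjc
              obtain ⟨hJf, hdg⟩ := hsub f c hf
              rcases Finset.mem_insert.1 hjc with h6 | h6
              · have h7 := hR.k2 J f c hJf hdg (by omega)
                rw [h6] at h7
                exact absurd h7.1 hJj
              · exact h4 f c hf hrk h6
        obtain ⟨θ, h1, h2, h3, h4⟩ := inner Finset.univ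
        refine ⟨θ, h1, h2, fun f c hf hrk => ?_⟩
        by_cases h5 : rk J f c ≤ n
        · exact h3 f c hf h5
        · exact h4 f c hf (by omega) (Finset.mem_univ _)
    obtain ⟨M, hM⟩ := hR.bdr
    obtain ⟨θ, h1, h2, h3⟩ := key M
    exact ⟨θ, h1, h2, fun f c hf => h3 f c hf (hM J f c)⟩

/-- the correction lemma -/
theorem acl_main : T_ACL := by
  intro k X C 𝓛 _ rx R l₀ eq dg y ext at' rk jc O hB hC hA hR hO
  obtain ⟨θ, h1, -, h3⟩ := rc_main k X C 𝓛 rx R l₀ eq dg y ext at' rk jc hB hC hA hR
    ((Finset.univ \ (∅ : Finset (Fin k))).card + 1) ∅ (by omega) dg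
    (fun f c h => ⟨Finset.empty_subset _, h⟩) (fun f c c' h hc => hA.dge f c c' hc h)
    (fun h f c hf _ hhf => hA.dgm h f c hhf hf)
    (fun f c p hf hp hpy => (hA.e1 f c p hf hp hpy).2.1) O hO
    (fun f c h _ _ hh => absurd (Finset.empty_subset _) hh)
  exact ⟨θ, h1, h3⟩

end Pool.Agent.H76.GX
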