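import Mathlib

/-!
# The correction lemma: definitions of the abstract part

Patterns are the elements of `X`; `rx e p` is the restriction of the pattern `p` to the set `e` of
positions, and `R l` is the set of the patterns in the relation `l`. Configurations are the elements
of `C`.
-/

set_option autoImplicit false
set_option linter.unusedVariables false

namespace Pool.Agent.H76.GX

open Classical

section abs

variable {k : ℕ} {X C 𝓛 : Type}

/-- the relations on patterns -/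
structure PB (rx : Finset (Fin k) → X → X) (R : 𝓛 → X → Prop) (l₀ : 𝓛) : Prop where
  un : ∀ p, rx Finset.univ p = p
  rr : ∀ e f p, rx e (rx f p) = rx (e ∩ f) p
  base : ∀ l p, R l p → R l₀ p

/-- natural maps -/
structure Nt (rx : Finset (Fin k) → X → X) (R : 𝓛 → X → Prop) (l₀ : 𝓛) (θ : X → X) : Prop where
  rel : ∀ l p, R l p → R l (θ p)
  nat : ∀ e p p', R l₀ p → R l₀ p' → rx e p = rx e p' → rx e (θ p) = rx e (θ p')

/-- All natural maps are injective at all sorts. -/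
def Core (rx : Finset (Fin k) → X → X) (R : 𝓛 → X → Prop) (l₀ : 𝓛) : Prop :=
  ∀ θ, Nt rx R l₀ θ → ∀ e p p', R l₀ p → R l₀ p' → rx e (θ p) = rx e (θ p') → rx e p = rx e p'

/-- Configurations: `eq e` is the relation `~_e`, `dg e c` says that `c` is diagonal on `e`, and
then `y e c` is the common label; `ext` are the free extensions, `at' l` is the hypothesis on the
labels for the relation `l`. -/
structure CA (rx : Finset (Fin k) → X → X) (R : 𝓛 → X → Prop) (l₀ : 𝓛)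
    (eq : Finset (Fin k) → C → C → Prop) (dg : Finset (Fin k) → C → Prop)
    (y : Finset (Fin k) → C → X) (ext : Finset (Fin k) → C → X → C) (at' : 𝓛 → C → Prop) :
    Prop where
  refl : ∀ e c, eq e c c
  symm : ∀ e c c', eq e c c' → eq e c' c
  trans : ∀ e c c' c'', eq e c c' → eq e c' c'' → eq e c c''
  mono : ∀ e f c c', e ⊆ f → eq f c c' → eq e c c'
  dgm : ∀ e f c, e ⊆ f → dg f c → dg e c
  dge : ∀ e c c', eq e c c' → dg e c → dg e c'
  ye : ∀ e c c', eq e c c' → dg e c → y e c = y e c'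
  ym : ∀ e f c, e ⊆ f → dg f c → rx e (y f c) = y e c
  yx : ∀ e c, dg e c → ∃ p, R l₀ p ∧ rx e p = y e c
  e1 : ∀ J c p, dg J c → R l₀ p → rx J p = y J c →
    eq J (ext J c p) c ∧ dg Finset.univ (ext J c p) ∧ y Finset.univ (ext J c p) = p
  e2 : ∀ J e c c' p p', J ⊆ e → dg J c → R l₀ p → rx J p = y J c → R l₀ p' → rx J p' = y J c' →
    eq e c c' → rx e p = rx e p' → eq e (ext J c p) (ext J c' p')
  e3 : ∀ J c l p, dg J c → R l p → rx J p = y J c → at' l (ext J c p)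

/-- ranks -/
structure RkA (rx : Finset (Fin k) → X → X) (R : 𝓛 → X → Prop) (l₀ : 𝓛)
    (eq : Finset (Fin k) → C → C → Prop) (dg : Finset (Fin k) → C → Prop)
    (y : Finset (Fin k) → C → X) (ext : Finset (Fin k) → C → X → C)
    (rk : Finset (Fin k) → Finset (Fin k) → C → ℕ)
    (jc : Finset (Fin k) → Finset (Fin k) → C → Finset (Fin k)) : Prop where
  bdr : ∃ M, ∀ J f c, rk J f c ≤ M
  req : ∀ J f c c', J ⊆ f → dg f c → eq f c c' → rk J f c = rk J f c' ∧ jc J f c = jc J f c'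
  k1 : ∀ J f c p, J ⊆ f → dg f c → R l₀ p → rx f p = y f c → rk J f c = 0 → eq f c (ext J c p)
  k2 : ∀ J f c, J ⊆ f → dg f c → rk J f c ≠ 0 → J ⊂ jc J f c ∧ jc J f c ⊆ f
  k3 : ∀ J h f c, J ⊆ h → h ⊆ f → dg f c →
    (jc J f c ⊆ h → rk J h c = rk J f c ∧ jc J h c = jc J f c) ∧
      (¬ jc J f c ⊆ h → rk J h c < rk J f c)
  k4 : ∀ J f c p, J ⊆ f → dg f c → R l₀ p → rx f p = y f c →
    rk J Finset.univ (ext f c p) = rk J f c ∧ jc J Finset.univ (ext f c p) = jc J f c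

/-- distances -/
structure DA (rx : Finset (Fin k) → X → X) (R : 𝓛 → X → Prop) (l₀ : 𝓛)
    (eq : Finset (Fin k) → C → C → Prop) (dg : Finset (Fin k) → C → Prop)
    (y : Finset (Fin k) → C → X) (ext : Finset (Fin k) → C → X → C) (B : ℕ)
    (D : Finset (Fin k) → Finset (Fin k) → C → ℕ) : Prop where
  bd : ∀ J f c, D J f c ≤ B
  deq : ∀ J f c c', J ⊆ f → dg f c → eq f c c' → D J f c = D J f c'
  djj : ∀ J c, dg J c → D J J c = B
  d1 : ∀ J h f c, J ⊆ h → h ⊆ f → dg f c → D J f c ≤ D J h c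
  d2 : ∀ J h e c p, J ⊆ h → J ⊆ e → dg e c → R l₀ p → rx e p = y e c →
    min (D J (h ∩ e) c) (D J e c + 1) ≤ D J h (ext e c p)
  d3 : ∀ J f c p, J ⊆ f → dg f c → R l₀ p → rx f p = y f c → D J f c = B → eq f c (ext J c p)

/-- outputs -/
structure OA (rx : Finset (Fin k) → X → X) (R : 𝓛 → X → Prop) (l₀ : 𝓛)
    (eq : Finset (Fin k) → C → C → Prop) (at' : 𝓛 → C → Prop) (O : C → X) : Prop where
  o1 : ∀ l c, at' l c → R l (O c)
  oat : ∀ c, R l₀ (O c)
  o2 : ∀ e c c', eq e c c' → rx e (O c) = rx e (O c')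

/-- corrections -/
structure Cor (rx : Finset (Fin k) → X → X) (R : 𝓛 → X → Prop) (l₀ : 𝓛)
    (eq : Finset (Fin k) → C → C → Prop) (θ : C → X → X) : Prop where
  nt : ∀ c l p, R l p → R l (θ c p)
  nat : ∀ e c c' p p', eq e c c' → R l₀ p → R l₀ p' → rx e p = rx e p' →
    rx e (θ c p) = rx e (θ c' p')

end abs

/-- Natural maps of a core have a common finite order. -/
def T_INV : Prop :=
  ∀ (k : ℕ) (X 𝓛 : Type) [Finite X] (rx : Finset (Fin k) → X → X) (R : 𝓛 → X → Prop) (l₀ : 𝓛),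
    PB rx R l₀ → Core rx R l₀ → ∃ m : ℕ, 1 ≤ m ∧ ∀ θ, Nt rx R l₀ θ → ∀ p, R l₀ p → θ^[m] p = p

/-- the retraction to the core -/
def T_COR : Prop :=
  ∀ (k : ℕ) (X 𝓛 : Type) [Finite X] (rx : Finset (Fin k) → X → X) (R : 𝓛 → X → Prop) (l₀ : 𝓛),
    PB rx R l₀ → ∃ ε : X → X, Nt rx R l₀ ε ∧ (∀ p, R l₀ p → ε (ε p) = ε p) ∧
      Core rx (fun l p => R l p ∧ ε p = p) l₀

/-- the correction lemma -/
def T_ACL : Prop :=
  ∀ (k : ℕ) (X C 𝓛 : Type) [Finite X] (rx : Finset (Fin k) → X → X) (R : 𝓛 → X → Prop) (l₀ : 𝓛)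
    (eq : Finset (Fin k) → C → C → Prop) (dg : Finset (Fin k) → C → Prop)
    (y : Finset (Fin k) → C → X) (ext : Finset (Fin k) → C → X → C) (at' : 𝓛 → C → Prop)
    (rk : Finset (Fin k) → Finset (Fin k) → C → ℕ)
    (jc : Finset (Fin k) → Finset (Fin k) → C → Finset (Fin k)) (O : C → X),
    PB rx R l₀ → Core rx R l₀ → CA rx R l₀ eq dg y ext at' → RkA rx R l₀ eq dg y ext rk jc →
    OA rx R l₀ eq at' O →
    ∃ θ : C → X → X, Cor rx R l₀ eq θ ∧ ∀ f c, dg f c → rx f (θ c (O c)) = y f c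

/-- ranks from distances -/
def T_RKD : Prop :=
  ∀ (k : ℕ) (X C 𝓛 : Type) (rx : Finset (Fin k) → X → X) (R : 𝓛 → X → Prop) (l₀ : 𝓛)
    (eq : Finset (Fin k) → C → C → Prop) (dg : Finset (Fin k) → C → Prop)
    (y : Finset (Fin k) → C → X) (ext : Finset (Fin k) → C → X → C) (at' : 𝓛 → C → Prop)
    (B : ℕ) (D : Finset (Fin k) → Finset (Fin k) → C → ℕ),
    PB rx R l₀ → CA rx R l₀ eq dg y ext at' → DA rx R l₀ eq dg y ext B D →
    ∃ (rk : Finset (Fin k) → Finset (Fin k) → C → ℕ)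
      (jc : Finset (Fin k) → Finset (Fin k) → C → Finset (Fin k)),
      RkA rx R l₀ eq dg y ext rk jc

end Pool.Agent.H76.GX
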