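import Pool.Agent.H76.GX.Targets

/-!
# GMSNP: assembly of the algebraic part
-/

set_option autoImplicit false
set_option linter.unusedVariables false

namespace Pool.Agent.H76.GX

open Pool.Agent.H68.BP Pool.Agent.H58.SF Pool.Agent.H53.GC Pool.Agent.H53.GR Pool.Agent.H53.GM
open Pool.Agent.H53.GX
open Classical

section

variable {τ σ : Sig} {N k : ℕ} (F : Set (Str τ (Fin N))) (Al : Fin σ.m → Fin τ.m → Prop)
  (ε : Ty τ N (Fin k) → Ty τ N (Fin k))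

theorem rse_inter (e f : Finset (Fin k)) (p : Ty τ N (Fin k)) :
    rse e (rse f p) = rse (e ∩ f) p := by
  ext q
  constructor
  · rintro ⟨⟨h1, h2⟩, h3⟩
    exact ⟨h1, fun v i hi => Finset.mem_inter.2 ⟨h3 v i hi, h2 v i hi⟩⟩
  · rintro ⟨h1, h2⟩
    exact ⟨⟨h1, fun v i hi => (Finset.mem_inter.1 (h2 v i hi)).2⟩,
      fun v i hi => (Finset.mem_inter.1 (h2 v i hi)).1⟩

theorem rse_univ' (p : Ty τ N (Fin k)) : rse Finset.univ p = p := by
  ext q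
  exact ⟨fun h => h.1, fun h => ⟨h, fun v i hi => Finset.mem_univ i⟩⟩

theorem rp_base (l : Option (Σ l : Fin σ.m, (Fin (σ.ar l) → Fin k))) (P : Ty τ N (Fin k))
    (h : RP F Al l P) : Rl F P := by
  rcases l with _ | q
  · exact h
  · exact h.1

theorem pb_rp : PB rse (RP (k := k) F Al) none :=
  ⟨rse_univ', rse_inter, fun l P h => rp_base F Al l P h⟩

theorem pb_rpe : PB rse (RPe F Al ε) none :=
  ⟨rse_univ', rse_inter, fun l P h => ⟨rp_base F Al l P h.1, h.2⟩⟩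

theorem bas_RRe : Bas (RRe F Al k ε) none (fun a b x => rse a.1 x) := by
  refine ⟨?_, ?_⟩
  · rintro l p ⟨P, hP, h⟩
    exact ⟨P, ⟨rp_base F Al l P hP.1, hP.2⟩, h⟩
  · rintro p ⟨P, h1, h2⟩ a b hab
    rw [h2 a, h2 b, rse_rse hab]

end

/-- outputs and corrections -/
theorem asm_pck (hCAX : T_CAX) (hDAX : T_DAX) (hRKD : T_RKD) (hACL : T_ACL) (hBRG : T_BRG)
    (τ σ : Sig) (N k : ℕ) (F : Set (Str τ (Fin N))) (Al : Fin σ.m → Fin τ.m → Prop)
    (ε : Ty τ N (Fin k) → Ty τ N (Fin k)) (hF : Hyp τ N F) (hk : 1 ≤ k)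
    (hε : Nt rse (RP F Al) none ε) (hid : ∀ P, Rl F P → ε (ε P) = ε P)
    (hC : Core rse (RPe F Al ε) none) (I : Finset (Fin k)) (a₀ : Ty τ N (Fin (k + k)))
    (Out : Nm τ N k (N + 1) → Ty τ N (Fin k))
    (h1 : ∀ q, CfX F I a₀ q → Rl F (Out q) ∧ ∀ (l : Fin σ.m) (z : Fin (σ.ar l) → Fin k),
      (∀ c, hasl Al l (fun i => rdp q.1 (z i)) (q.2.2.2 c)) → hasl Al l z (Out q))
    (h2 : ∀ q q' e, CfX F I a₀ q → CfX F I a₀ q' → EqX I a₀ e q q' →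
      rse e (Out q) = rse e (Out q')) :
    ∃ (O : Nm τ N k (N + 1) → Ty τ N (Fin k))
      (θ : Nm τ N k (N + 1) → Ty τ N (Fin k) → Ty τ N (Fin k)), Pck F Al ε I a₀ O θ := by
  have hfin := finite_ty τ N (Fin k)
  obtain ⟨O₀, g1, g2⟩ := hBRG τ σ N k (N + 1) F Al I a₀ Out h1 h2
  have h1L : 1 ≤ N + 1 := by omega
  have hA := hCAX τ σ N k (N + 1) F Al ε I a₀ hF hk h1L
  have hD := hDAX τ σ N k (N + 1) F Al ε I a₀ hF hk h1L
  have hB := pb_rpe F Al ε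
  obtain ⟨rk, jc, hR⟩ := hRKD k _ _ _ rse (RPe F Al ε) none _ _ _ _ _ (Bd τ N) _ hB hA hD
  have e1 : ∀ c : Nm τ N k (N + 1), OkC F I a₀ c → ∀ l, atC Al c l →
      RPe F Al ε l (ε (O₀ c)) := by
    intro c hc l hl
    refine ⟨hε.rel l _ (g1 c hc l hl), hid _ ?_⟩
    exact g1 c hc none trivial
  have hO : OA rse (RPe F Al ε) none
      (fun e (c c' : CC (N + 1) F I a₀) => EqC I a₀ e c.1 c'.1) (fun l c => atC Al c.1 l)
      (fun c => ε (O₀ c.1)) := by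
    refine ⟨fun l c hl => e1 c.1 c.2 l hl, fun c => e1 c.1 c.2 none trivial, ?_⟩
    intro e c c' hcc
    exact hε.nat e _ _ (g1 c.1 c.2 none trivial) (g1 c'.1 c'.2 none trivial)
      (g2 e c.1 c'.1 c.2 c'.2 hcc.1)
  obtain ⟨θ, t1, t2⟩ := hACL k _ _ _ rse (RPe F Al ε) none _ _ _ _ _ rk jc _ hB hC hA hR hO
  refine ⟨fun c => ε (O₀ c), fun c => if h : OkC F I a₀ c then θ ⟨c, h⟩ else fun P => P, ?_⟩
  have e2 : ∀ (c : Nm τ N k (N + 1)) (hc : OkC F I a₀ c),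
      (if h : OkC F I a₀ c then θ ⟨c, h⟩ else fun P => P) = θ ⟨c, hc⟩ := fun c hc => dif_pos hc
  refine ⟨?_, ?_, e1, ?_, ?_⟩
  · intro c hc l P hP
    rw [e2 c hc]
    exact t1.nt ⟨c, hc⟩ l P hP
  · intro e c c' hc hc' hcc P P' hP hP' hPP
    rw [e2 c hc, e2 c' hc']
    exact t1.nat e ⟨c, hc⟩ ⟨c', hc'⟩ P P' hcc hP hP' hPP
  · intro e c c' hc hc' hcc
    exact hε.nat e _ _ (g1 c hc none trivial) (g1 c' hc' none trivial) (g2 e c c' hc hc' hcc)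
  · intro e c hc hd
    rw [e2 c hc]
    exact t2 e ⟨c, hc⟩ hd

/-- the algebra -/
theorem asm_noi3 (hJZ : T_JZ3) (hSWI : T_SWI) (hNXT : T_NXT) (hCYC : T_CYC) (hOLK : T_OLK)
    (X 𝓛 : Type) [Finite X] [Nonempty X] [Finite 𝓛] (N k : ℕ)
    (R : 𝓛 → (So N k → X) → Prop) (l₀ : 𝓛) (rd : So N k → So N k → X → X) (hB : Bas R l₀ rd)
    (hC : ∀ I : Finset (Fin k), Chn3 R l₀ I) :
    ∃ F : So N k → (Fin 6 → X) → X, Fam R (Fin 6) F ∧
      ∀ e x y r, F e (pat r x y) = F e (pat 0 x y) := by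
  have key : ∀ (m : ℕ) (I : Finset (Fin k)), k - I.card ≤ m →
      ¬ ∃ ι : (J : Type) → [Finite J] → [Nonempty J] → (So N k → (J → X) → X) → J,
        Iot R l₀ I ι := by
    intro m
    induction m with
    | zero =>
      rintro I hI ⟨ι, hι⟩
      obtain ⟨⟨e, he⟩, h1, v, hv, h2⟩ := hJZ X 𝓛 N k R l₀ rd I ι hB hι (hC I)
      have h3 : I.card < (Finset.univ : Finset (Fin k)).card :=
        Finset.card_lt_card ⟨Finset.subset_univ _, fun h => hv (h (Finset.mem_univ v))⟩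
      rw [Finset.card_univ, Fintype.card_fin] at h3
      omega
    | succ m ih =>
      rintro I hI ⟨ι, hι⟩
      obtain ⟨⟨e, he⟩, h1, v, hv, h2⟩ := hJZ X 𝓛 N k R l₀ rd I ι hB hι (hC I)
      let I' : Finset (Fin k) := Finset.univ.filter fun v => ∀ e, Loc R l₀ I ι e → v ∈ e.1
      have hII : I ⊆ I' := by
        intro w hw
        refine Finset.mem_filter.2 ⟨Finset.mem_univ _, fun e he => ?_⟩
        exact (h1 e he).1 hw
      have hvI : v ∈ I' := Finset.mem_filter.2 ⟨Finset.mem_univ _, h2⟩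
      have hsub : ∀ e, Loc R l₀ I ι e → I' ⊆ e.1 := fun e he w hw =>
        (Finset.mem_filter.1 hw).2 e he
      have hcard : I'.card ≤ N := (Finset.card_le_card (hsub e he)).trans e.2.2
      have hstr : ∀ e, Loc R l₀ I ι e → I' ⊂ e.1 := by
        intro e' he'
        refine lt_of_le_of_ne (hsub e' he') fun heq => ?_
        exact hSWI X 𝓛 N k R l₀ rd I ι ⟨I', ⟨v, hvI⟩, hcard⟩ hB hι (fun e he => hsub e he) (by
          have h5 : (⟨I', ⟨v, hvI⟩, hcard⟩ : So N k) = e' := Subtype.ext heq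
          rw [h5]
          exact he')
      have hlt : I.card < I'.card :=
        Finset.card_lt_card ⟨hII, fun h => hv (h hvI)⟩
      refine hNXT X 𝓛 N k R l₀ rd I I' ι hB hι hII hstr ?_
      refine hCYC X 𝓛 N k R l₀ rd I' hB (ih I' ?_)
      omega
  exact hOLK X 𝓛 N k R l₀ rd hB (hCYC X 𝓛 N k R l₀ rd ∅ hB (key k ∅ (by simp)))

/-- from the outputs to Olšák families -/
theorem asm_alg (hCOR : T_COR) (hCAX : T_CAX) (hDAX : T_DAX) (hRKD : T_RKD) (hACL : T_ACL)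
    (hBRG : T_BRG) (hFMX : T_FMX) (hOLE : T_OLE)
    (hJZ : T_JZ3) (hSWI : T_SWI) (hNXT : T_NXT) (hCYC : T_CYC) (hOLK : T_OLK) : T_ALG := by
  intro τ σ N F Al hF k hk hOut
  have hfin := finite_ty τ N (Fin k)
  obtain ⟨ε, h1, h2, h3⟩ := hCOR k (Ty τ N (Fin k))
    (Option (Σ l : Fin σ.m, (Fin (σ.ar l) → Fin k))) rse (RP F Al) none (pb_rp F Al)
  refine hOLE τ σ N k F Al ε h1 h2 ?_
  refine asm_noi3 hJZ hSWI hNXT hCYC hOLK _ _ N k _ none _ (bas_RRe F Al ε) fun I => ?_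
  refine hFMX τ σ N k F Al ε hF hk h3 I fun a₀ ha₀ => ?_
  obtain ⟨Out, g1, g2⟩ := hOut I a₀ ha₀
  exact asm_pck hCAX hDAX hRKD hACL hBRG τ σ N k F Al ε hF hk h1 h2 h3 I a₀ Out g1 g2

end Pool.Agent.H76.GX
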