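import Pool.Agent.H53.GX.Targets
import Pool.Agent.H76.GX.Abs

/-!
# GMSNP: free amalgams, configurations, free extensions, families with corrections
-/

set_option autoImplicit false
set_option linter.unusedVariables false

namespace Pool.Agent.H76.GX

open Pool.Agent.H68.BP Pool.Agent.H58.SF Pool.Agent.H53.GC Pool.Agent.H53.GR Pool.Agent.H53.GM
open Pool.Agent.H53.GX
open Classical

noncomputable section

/-! ### Free amalgams -/

section free

variable {τ σ : Sig} {N k L : ℕ} {W J : Type}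

/-- the part of a position or of a constant -/
def fo (v : Fin (k + k)) : Fin k := Fin.addCases (fun i => i) (fun i => i) v

/-- the positions of the vertices in `e \ S` and of all constants -/
def gs (I S e : Finset (Fin k)) : Finset (Fin (k + k)) := ps (e \ S) ∪ cst I

/-- The free amalgam of the type `p` and the type `t` over the positions in `J`, where the
positions in `S ∩ J` are constants. -/
def fa (F : Set (Str τ (Fin N))) (I S J : Finset (Fin k)) (p : Ty τ N (Fin k))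
    (t : Ty τ N (Fin (k + k))) : Ty τ N (Fin (k + k)) :=
  {q | ∀ t', Rl F t' → p ⊆ rs (rdp (S ∩ J)) t' → rse (gs I S J) t ⊆ t' → q ∈ t'}

/-- the number of atoms of a piece -/
def atc (q : Str τ (Fin N) × (Fin N → Option J)) : ℕ :=
  Nat.card {x : Σ l : Fin τ.m, (Fin (τ.ar l) → Fin N) // q.1 x.1 x.2}

/-- more than the number of the atoms of all pieces -/
def Bd (τ : Sig) (N : ℕ) : ℕ := Nat.card (Σ l : Fin τ.m, (Fin (τ.ar l) → Fin N)) + 1

/-- the structure of a free amalgam -/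
structure FrA (F : Set (Str τ (Fin N))) (I S J : Finset (Fin k))
    (p : Ty τ N (Fin k)) (t : Ty τ N (Fin (k + k))) (M M₁ M₂ : Str τ W) (B₁ B₂ : Set W)
    (b : Fin (k + k) → W) : Prop where
  inj : Function.Injective b
  val : Val F M
  un : ∀ l z, M l z ↔ M₁ l z ∨ M₂ l z
  s1 : ∀ l z, M₁ l z → ∀ i, z i ∈ B₁
  s2 : ∀ l z, M₂ l z → ∀ i, z i ∈ B₂
  int : ∀ x, x ∈ B₁ → x ∈ B₂ → ∃ v ∈ J, x = b (rdp S v)
  r1 : ∀ w, b w ∈ B₁ → ∃ v, w = rdp (S ∩ J) v
  r2 : ∀ w, b w ∈ B₂ → w ∈ gs I S J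
  t1 : tp N M₁ (fun v => b (rdp (S ∩ J) v)) = p
  t2 : rse (gs I S J) (tp N M₂ b) = rse (gs I S J) t

end free

/-! ### Configurations -/

section cfg

variable {τ σ : Sig} {N k L : ℕ}

/-- The conditions on configurations `(S, r, lb, lam)`: also the regions of the positions in `S`
are in the path `r` and adjacent. -/
structure OkC (F : Set (Str τ (Fin N))) (I : Finset (Fin k)) (a₀ : Ty τ N (Fin (k + k)))
    (c : Nm τ N k L) : Prop where
  sub : c.1 ⊆ I
  mx : ∀ i, Rl F (c.2.2.2 i) ∧ rse (cst I) (c.2.2.2 i) = a₀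
  reg : ∀ v, inR c.2.1 (c.2.2.1 v)
  adj : ∀ v v', Adj (c.2.2.1 v) (c.2.2.1 v')
  bin : (∀ v, c.2.2.1 v = none) ∨ ∃ P P', c.2.2.2 = pat c.2.1 P P'

/-- the configurations agree on `e`, with the regions of the constants -/
def EqC (I : Finset (Fin k)) (a₀ : Ty τ N (Fin (k + k))) (e : Finset (Fin k))
    (c c' : Nm τ N k L) : Prop :=
  EqX I a₀ e c c' ∧ ∀ v ∈ e, c.2.2.1 v = c'.2.2.1 v

/-- the relations on patterns -/
def RP (F : Set (Str τ (Fin N))) (Al : Fin σ.m → Fin τ.m → Prop) :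
    Option (Σ l : Fin σ.m, (Fin (σ.ar l) → Fin k)) → Ty τ N (Fin k) → Prop
  | none => fun P => Rl F P
  | some q => fun P => Rl F P ∧ hasl Al q.1 q.2 P

/-- the relations on patterns of the core -/
def RPe (F : Set (Str τ (Fin N))) (Al : Fin σ.m → Fin τ.m → Prop)
    (ε : Ty τ N (Fin k) → Ty τ N (Fin k)) (l : Option (Σ l : Fin σ.m, (Fin (σ.ar l) → Fin k)))
    (P : Ty τ N (Fin k)) : Prop := RP F Al l P ∧ ε P = P

/-- the configuration is diagonal on `e` -/
def dgC (F : Set (Str τ (Fin N))) (ε : Ty τ N (Fin k) → Ty τ N (Fin k)) (e : Finset (Fin k))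
    (c : Nm τ N k L) : Prop :=
  ∃ P, (Rl F P ∧ ε P = P) ∧ ∀ i, rse e (rs (rdp c.1) (c.2.2.2 i)) = rse e P

/-- the label of the positions `e` -/
def yC (e : Finset (Fin k)) (c : Nm τ N k L) : Ty τ N (Fin k) :=
  rse e (rs (rdp c.1) (c.2.2.2 0))

/-- the free extension -/
def exR (F : Set (Str τ (Fin N))) (I J : Finset (Fin k)) (c : Nm τ N k L) (p : Ty τ N (Fin k)) :
    Nm τ N k L :=
  (c.1 ∩ J, c.2.1, c.2.2.1, fun i => fa F I c.1 J p (c.2.2.2 i))

/-- the configurations -/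
abbrev CC (L : ℕ) (F : Set (Str τ (Fin N))) (I : Finset (Fin k)) (a₀ : Ty τ N (Fin (k + k))) :
    Type := {c : Nm τ N k L // OkC F I a₀ c}

/-- the free extension, as an operation on configurations -/
def exC (F : Set (Str τ (Fin N))) (I : Finset (Fin k)) (a₀ : Ty τ N (Fin (k + k)))
    (J : Finset (Fin k)) (c : CC L F I a₀) (p : Ty τ N (Fin k)) : CC L F I a₀ :=
  if h : OkC F I a₀ (exR F I J c.1 p) then ⟨_, h⟩ else c

/-- the hypothesis on the labels for the relation `l` -/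
def atC (Al : Fin σ.m → Fin τ.m → Prop) (c : Nm τ N k L) :
    Option (Σ l : Fin σ.m, (Fin (σ.ar l) → Fin k)) → Prop
  | none => True
  | some q => ∀ i, hasl Al q.1 (fun j => rdp c.1 (q.2 j)) (c.2.2.2 i)

/-- the distance -/
def DC (F : Set (Str τ (Fin N))) (I J f : Finset (Fin k)) (c : Nm τ N k L) : ℕ :=
  if c.1 ∩ f ⊆ J then sInf (insert (Bd τ N) {n | ∃ (i : Fin 6)
    (q : Str τ (Fin N) × (Fin N → Option (Fin (k + k)))), q ∈ rse (gs I c.1 f) (c.2.2.2 i) ∧
      q ∉ fa F I c.1 J (yC f c) (c.2.2.2 i) ∧ atc q = n}) else 0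

/-- outputs and corrections for the constants `I` with the type `a₀` -/
structure Pck (F : Set (Str τ (Fin N))) (Al : Fin σ.m → Fin τ.m → Prop)
    (ε : Ty τ N (Fin k) → Ty τ N (Fin k)) (I : Finset (Fin k)) (a₀ : Ty τ N (Fin (k + k)))
    (O : Nm τ N k L → Ty τ N (Fin k)) (θ : Nm τ N k L → Ty τ N (Fin k) → Ty τ N (Fin k)) :
    Prop where
  pn : ∀ c, OkC F I a₀ c → ∀ l P, RPe F Al ε l P → RPe F Al ε l (θ c P)
  pa : ∀ e c c', OkC F I a₀ c → OkC F I a₀ c' → EqC I a₀ e c c' → ∀ P P', RPe F Al ε none P →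
    RPe F Al ε none P' → rse e P = rse e P' → rse e (θ c P) = rse e (θ c' P')
  p1 : ∀ c, OkC F I a₀ c → ∀ l, atC Al c l → RPe F Al ε l (O c)
  p2 : ∀ e c c', OkC F I a₀ c → OkC F I a₀ c' → EqX I a₀ e c c' → rse e (O c) = rse e (O c')
  pd : ∀ e c, OkC F I a₀ c → dgC F ε e c → rse e (θ c (O c)) = yC e c

/-! ### Configurations of patterns -/

/-- the type of the tuple in which each position is both a vertex and a constant -/
def up (P : Ty τ N (Fin k)) : Ty τ N (Fin (k + k)) := rs fo P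

/-- the type of the constants -/
def ka (I : Finset (Fin k)) (P : Ty τ N (Fin k)) : Ty τ N (Fin (k + k)) :=
  rse (cst I) (up P)

/-- the configuration of six patterns -/
def cf (I : Finset (Fin k)) (r : Fin 3) (lb : Fin k → Rg L) (p : Fin 6 → Ty τ N (Fin k)) :
    Nm τ N k L := (I, r, lb, fun i => up (p i))

/-- the conditions on the regions -/
structure Lab (r : Fin 3) (lb : Fin k → Rg L) : Prop where
  reg : ∀ v, inR r (lb v)
  adj : ∀ v v', Adj (lb v) (lb v')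

/-- six patterns of a configuration of the level `I` -/
structure Six (F : Set (Str τ (Fin N))) (ε : Ty τ N (Fin k) → Ty τ N (Fin k))
    (I : Finset (Fin k)) (r : Fin 3) (lb : Fin k → Rg L) (p : Fin 6 → Ty τ N (Fin k)) :
    Prop where
  mx : ∀ i, Rl F (p i) ∧ ε (p i) = p i
  eqI : ∀ i i', rse I (p i) = rse I (p i')
  bin : (∀ v, lb v = none) ∨ ∃ P P', p = pat r P P'

/-- the corrected output -/
def oX (I : Finset (Fin k)) (O : Ty τ N (Fin (k + k)) → Nm τ N k L → Ty τ N (Fin k))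
    (θ : Ty τ N (Fin (k + k)) → Nm τ N k L → Ty τ N (Fin k) → Ty τ N (Fin k))
    (r : Fin 3) (lb : Fin k → Rg L) (p : Fin 6 → Ty τ N (Fin k)) : Ty τ N (Fin k) :=
  θ (ka I (p 0)) (cf I r lb p) (O (ka I (p 0)) (cf I r lb p))

/-- the values of the family of the labelling `lb` of the path `r` -/
def vX (F : Set (Str τ (Fin N))) (ε : Ty τ N (Fin k) → Ty τ N (Fin k)) (I : Finset (Fin k))
    (O : Ty τ N (Fin (k + k)) → Nm τ N k L → Ty τ N (Fin k))
    (θ : Ty τ N (Fin (k + k)) → Nm τ N k L → Ty τ N (Fin k) → Ty τ N (Fin k))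
    (r : Fin 3) (lb : Fin k → Rg L) (e : So N k) (w : Fin 6 → Ty τ N (Fin k)) :
    Ty τ N (Fin k) :=
  if h : I ⊂ e.1 ∧ ∃ p, Six F ε I r lb p ∧ ∀ i, rse e.1 (p i) = w i then
    rse e.1 (oX I O θ r lb h.2.choose) else w 0

/-- the composition of the corrections -/
def uX (I : Finset (Fin k))
    (θ : Ty τ N (Fin (k + k)) → Nm τ N k L → Ty τ N (Fin k) → Ty τ N (Fin k)) (m : ℕ)
    (r : Fin 3) (lb lb' : Fin k → Rg L) (x y z : Ty τ N (Fin k)) : Ty τ N (Fin k) :=
  θ (ka I x) (cf I r lb' (pat r x y)) ((θ (ka I x) (cf I r lb (pat r x y)))^[m - 1] z)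

/-- the values of the ternary family -/
def tX (F : Set (Str τ (Fin N))) (ε : Ty τ N (Fin k) → Ty τ N (Fin k)) (I : Finset (Fin k))
    (θ : Ty τ N (Fin (k + k)) → Nm τ N k L → Ty τ N (Fin k) → Ty τ N (Fin k)) (m : ℕ)
    (r : Fin 3) (lb lb' : Fin k → Rg L) (e : So N k) (w : Fin 3 → Ty τ N (Fin k)) :
    Ty τ N (Fin k) :=
  if h : I ⊂ e.1 ∧ ∃ x : Fin 3 → Ty τ N (Fin k), (∀ i, Rl F (x i) ∧ ε (x i) = x i) ∧
      (∀ i i', rse I (x i) = rse I (x i')) ∧ ∀ i, rse e.1 (x i) = w i then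
    rse e.1 (uX I θ m r lb lb' (h.2.choose 0) (h.2.choose 1) (h.2.choose 2)) else w 2

end cfg

/-! ### Families -/

section families

variable {X 𝓛 : Type} {N k : ℕ}

/-- iteration in the last variable -/
def itT (T : So N k → (Fin 3 → X) → X) : ℕ → So N k → (Fin 3 → X) → X
  | 0 => fun e w => w 2
  | s + 1 => fun e w => T e ![w 0, w 1, itT T s e w]

/-- Chains of binary families with corrections. -/
def Chn3 (R : 𝓛 → (So N k → X) → Prop) (l₀ : 𝓛) (I : Finset (Fin k)) : Prop :=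
  ∃ (H : So N k → (Fin 6 → X) → X) (D : So N k → (Fin 2 → X) → X), FmI R I (Fin 6) H ∧
    FmI R I (Fin 2) D ∧ ∀ r : Fin 3, ∃ (m : ℕ) (G : ℕ → So N k → (Fin 2 → X) → X),
      (∀ j, FmI R I (Fin 2) (G j)) ∧
      (∀ e, EqS R l₀ I e (G 0) (fun e w => H e (pat r (w 0) (w 1)))) ∧
      (∀ e, EqS R l₀ I e (G m) D) ∧
      ∀ j, j < m → (∃ v, v ∉ I ∧ ∀ e : So N k, v ∉ e.1 → EqS R l₀ I e (G j) (G (j + 1))) ∨
        ∃ (T : So N k → (Fin 3 → X) → X) (s : ℕ), 1 ≤ s ∧ FmI R I (Fin 3) T ∧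
          (∀ e, EqS R l₀ I e (G (j + 1)) (fun e w => T e ![w 0, w 1, G j e w])) ∧
          ∀ e, EqS R l₀ I e (itT T s) (fun e w => w 2)

variable {τ σ : Sig}

/-- The relations on patterns of the core, given by their values at the sorts. -/
def RRe (F : Set (Str τ (Fin N))) (Al : Fin σ.m → Fin τ.m → Prop) (k : ℕ)
    (ε : Ty τ N (Fin k) → Ty τ N (Fin k)) (l : Option (Σ l : Fin σ.m, (Fin (σ.ar l) → Fin k)))
    (p : So N k → Ty τ N (Fin k)) : Prop :=
  ∃ P, RPe F Al ε l P ∧ ∀ e : So N k, p e = rse e.1 P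

end families

end

end Pool.Agent.H76.GX
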