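import Pool.Agent.H76.GX.CAX

/-!
# GMSNP: free extensions of configurations
-/

set_option autoImplicit false
set_option linter.unusedVariables false

namespace Pool.Agent.H76.GX

open Pool.Agent.H68.BP Pool.Agent.H58.SF Pool.Agent.H53.GC Pool.Agent.H53.GR Pool.Agent.H53.GM
open Pool.Agent.H53.GX (ps cst rdp Nm CfX lbx kdx EqX RX)
open Classical

section

variable {τ σ : Sig} {N k L : ℕ}

/-- The restrictions of labels agree if the restrictions of the types agree. -/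
theorem rsG_ext {I : Finset (Fin k)} {a₀ : Ty τ N (Fin k)} {α : Finset (Fin k × Rg L)}
    {x y : Kd τ N k}
    (h1 : α ≠ ∅ → ¬ AS α → ∀ i, rse (vr α ∪ I) (x.1 i) = rse (vr α ∪ I) (y.1 i))
    (h2 : α ≠ ∅ → ¬ AZ α → ∀ i, rse (vr α ∪ I) (x.2 i) = rse (vr α ∪ I) (y.2 i)) :
    rsG I a₀ α x = rsG I a₀ α y := by
  unfold rsG
  by_cases h0 : α = ∅
  · rw [if_pos h0, if_pos h0]
  · rw [if_neg h0, if_neg h0]
    refine Prod.ext ?_ ?_
    · by_cases h : AS α
      · simp only [if_pos h]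
      · simp only [if_neg h]
        funext i
        exact h1 h0 h i
    · by_cases h : AZ α
      · simp only [if_pos h]
      · simp only [if_neg h]
        funext i
        exact h2 h0 h i

theorem vr_lbx (lb : Fin k → Rg L) (I S e : Finset (Fin k)) :
    vr (pts (lbx lb) (ps (e \ S))) ∪ cst I = gs I S e := by
  rw [Pool.Agent.H29.GM.vr_pts]
  rfl

theorem cst_gs (I S e : Finset (Fin k)) : cst I ⊆ gs I S e := Finset.subset_union_right

theorem fa_pat {F : Set (Str τ (Fin N))} {I S J : Finset (Fin k)} {p : Ty τ N (Fin k)}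
    (r : Fin 3) (P P' : Ty τ N (Fin (k + k))) :
    (fun i => fa F I S J p (pat r P P' i)) = pat r (fa F I S J p P) (fa F I S J p P') :=
  funext fun i => pat_map (fa F I S J p) r P P' i

end

theorem pf_EX1 (hFAX : T_FAX) : T_EX1 := by
  intro τ N k L F I a₀ J c p hF hk hc hp h
  have hA := fun i => hFAX τ N k F I c.1 J p (c.2.2.2 i) hF hk hc.sub hp (hc.mx i).1 (h i).symm
  refine ⟨⟨?_, ?_, hc.reg, hc.adj, ?_⟩, ⟨⟨?_, fun _ _ _ => rfl, ?_⟩, fun _ _ => rfl⟩⟩
  · exact Finset.Subset.trans Finset.inter_subset_left hc.sub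
  · intro i
    refine ⟨(hA i).1, ?_⟩
    change rse (cst I) (fa F I c.1 J p (c.2.2.2 i)) = a₀
    rw [← rse_rse (cst_gs I c.1 J), (hA i).2.2.1, rse_rse (cst_gs I c.1 J)]
    exact (hc.mx i).2
  · rcases hc.bin with h1 | ⟨P, P', h1⟩
    · exact Or.inl h1
    · refine Or.inr ⟨fa F I c.1 J p P, fa F I c.1 J p P', ?_⟩
      change (fun i => fa F I c.1 J p (c.2.2.2 i)) = _
      rw [h1]
      exact fa_pat _ _ _
  · intro v hv
    change v ∈ c.1 ∩ J ↔ v ∈ c.1
    simp [hv]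
  · have h1 : J \ (exR F I J c p).1 = J \ c.1 := by
      change J \ (c.1 ∩ J) = J \ c.1
      simp
    rw [h1]
    unfold Pool.Agent.H53.GX.kdx kd
    refine rsG_ext ?_ ?_
    · intro _ _ i
      change rse (vr (pts (lbx c.2.2.1) (ps (J \ c.1))) ∪ cst I) (fa F I c.1 J p (c.2.2.2 i)) =
        rse (vr (pts (lbx c.2.2.1) (ps (J \ c.1))) ∪ cst I) (c.2.2.2 i)
      rw [vr_lbx]
      exact (hA i).2.2.1
    · intro _ _ i
      change rse (vr (pts (lbx c.2.2.1) (ps (J \ c.1))) ∪ cst I)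
        (fa F I c.1 J p (c.2.2.2 (ix c.2.1 i))) =
        rse (vr (pts (lbx c.2.2.1) (ps (J \ c.1))) ∪ cst I) (c.2.2.2 (ix c.2.1 i))
      rw [vr_lbx]
      exact (hA _).2.2.1

end Pool.Agent.H76.GX
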