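import Pool.Agent.H76.GX.Defs

/-!
# GMSNP: targets
-/

set_option autoImplicit false
set_option linter.unusedVariables false

namespace Pool.Agent.H76.GX

open Pool.Agent.H68.BP Pool.Agent.H58.SF Pool.Agent.H53.GC Pool.Agent.H53.GR Pool.Agent.H53.GM
open Pool.Agent.H53.GX
open Classical

/-! ### 1. Free amalgams -/

/-- free amalgams exist -/
def T_FRA : Prop :=
  ∀ (τ : Sig) (N k : ℕ) (F : Set (Str τ (Fin N))) (I S J : Finset (Fin k)) (p : Ty τ N (Fin k))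
    (t : Ty τ N (Fin (k + k))), Hyp τ N F → 1 ≤ k → S ⊆ I → Rl F p → Rl F t →
    rse J p = rse J (rs (rdp S) t) →
    ∃ (W : Type) (_ : Finite W) (M M₁ M₂ : Str τ W) (B₁ B₂ : Set W) (b : Fin (k + k) → W),
      FrA F I S J p t M M₁ M₂ B₁ B₂ b

/-- pieces of a free amalgam -/
def T_FGL : Prop :=
  ∀ (τ : Sig) (N k : ℕ) (F : Set (Str τ (Fin N))) (I S J : Finset (Fin k)) (p : Ty τ N (Fin k))
    (t : Ty τ N (Fin (k + k))) (W : Type) (M M₁ M₂ : Str τ W) (B₁ B₂ : Set W)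
    (b : Fin (k + k) → W), Hyp τ N F → 1 ≤ k → S ⊆ I → FrA F I S J p t M M₁ M₂ B₁ B₂ b →
    ∀ (W' : Type) (M' : Str τ W') (b' : Fin (k + k) → W') (Q : Finset (Fin (k + k))),
      (∀ v ∈ J, rdp S v ∈ Q) →
      (∀ q ∈ p, (∀ v i, q.2 v = some i → rdp (S ∩ J) i ∈ Q) →
        q ∈ tp N M' (fun v => b' (rdp (S ∩ J) v))) →
      rse (Q ∩ gs I S J) t ⊆ tp N M' b' →
      rse Q (tp N M b) ⊆ tp N M' b'

/-- the type of the free amalgam -/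
def T_FAX : Prop :=
  ∀ (τ : Sig) (N k : ℕ) (F : Set (Str τ (Fin N))) (I S J : Finset (Fin k)) (p : Ty τ N (Fin k))
    (t : Ty τ N (Fin (k + k))), Hyp τ N F → 1 ≤ k → S ⊆ I → Rl F p → Rl F t →
    rse J p = rse J (rs (rdp S) t) →
    Rl F (fa F I S J p t) ∧ rs (rdp (S ∩ J)) (fa F I S J p t) = p ∧
      rse (gs I S J) (fa F I S J p t) = rse (gs I S J) t ∧
      ∀ (e : Finset (Fin k)) (t₂ : Ty τ N (Fin (k + k))), J ⊆ e → Rl F t₂ →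
        rse e p ⊆ rs (rdp (S ∩ J)) t₂ → rse (gs I S J) t ⊆ t₂ →
        rse (gs I (S ∩ J) e) (fa F I S J p t) ⊆ t₂

/-- the type of the free amalgam is realized by the free amalgam -/
def T_FAE : Prop :=
  ∀ (τ : Sig) (N k : ℕ) (F : Set (Str τ (Fin N))) (I S J : Finset (Fin k)) (p : Ty τ N (Fin k))
    (t : Ty τ N (Fin (k + k))) (W : Type) [Finite W] (M M₁ M₂ : Str τ W) (B₁ B₂ : Set W)
    (b : Fin (k + k) → W), Hyp τ N F → 1 ≤ k → S ⊆ I → FrA F I S J p t M M₁ M₂ B₁ B₂ b →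
    fa F I S J p t = tp N M b

/-- splitting of pieces of a free amalgam -/
def T_SPT : Prop :=
  ∀ (τ : Sig) (N k : ℕ) (F : Set (Str τ (Fin N))) (I S e : Finset (Fin k)) (p : Ty τ N (Fin k))
    (t : Ty τ N (Fin (k + k))), Hyp τ N F → 1 ≤ k → S ⊆ I → Rl F p → Rl F t →
    rse e p = rse e (rs (rdp S) t) → ∀ (h : Finset (Fin k))
      (q : Str τ (Fin N) × (Fin N → Option (Fin (k + k)))),
      q ∈ rse (gs I (S ∩ e) h) (fa F I S e p t) →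
      (∃ q', q' ∈ rse (gs I S (h ∩ e)) t ∧ atc q' = atc q ∧ ∀ t₂, Rl F t₂ → q' ∈ t₂ → q ∈ t₂) ∨
      ∃ q', q' ∈ rse (gs I S e) t ∧ atc q' < atc q ∧
        ∀ t₂, Rl F t₂ → p ⊆ rs (rdp (S ∩ e)) t₂ → q' ∈ t₂ → q ∈ t₂

/-! ### 2. Configurations -/

/-- Labels of equal kind. -/
def T_LCL : Prop :=
  ∀ (τ : Sig) (N k L : ℕ) (F : Set (Str τ (Fin N))) (I : Finset (Fin k))
    (a₀ : Ty τ N (Fin (k + k))) (e : Finset (Fin k)) (c c' : Nm τ N k L), 1 ≤ L →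
    OkC F I a₀ c → OkC F I a₀ c' → EqX I a₀ e c c' →
    ∀ i, ∃ j, rse (gs I c.1 e) (c.2.2.2 j) = rse (gs I c'.1 e) (c'.2.2.2 i)

/-- the free extension -/
def T_EX1 : Prop :=
  ∀ (τ : Sig) (N k L : ℕ) (F : Set (Str τ (Fin N))) (I : Finset (Fin k))
    (a₀ : Ty τ N (Fin (k + k))) (J : Finset (Fin k)) (c : Nm τ N k L) (p : Ty τ N (Fin k)),
    Hyp τ N F → 1 ≤ k → OkC F I a₀ c → Rl F p →
    (∀ i, rse J (rs (rdp c.1) (c.2.2.2 i)) = rse J p) →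
    OkC F I a₀ (exR F I J c p) ∧ EqC I a₀ J (exR F I J c p) c

/-- The free extensions of equal labels are equal. -/
def T_EX2 : Prop :=
  ∀ (τ : Sig) (N k L : ℕ) (F : Set (Str τ (Fin N))) (I : Finset (Fin k))
    (a₀ : Ty τ N (Fin (k + k))) (J e : Finset (Fin k)) (c c' : Nm τ N k L)
    (p p' : Ty τ N (Fin k)), Hyp τ N F → 1 ≤ k → 1 ≤ L → OkC F I a₀ c → OkC F I a₀ c' →
    J ⊆ e → Rl F p → Rl F p' → (∀ i, rse J (rs (rdp c.1) (c.2.2.2 i)) = rse J p) →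
    (∀ i, rse J (rs (rdp c'.1) (c'.2.2.2 i)) = rse J p') → EqC I a₀ e c c' →
    rse e p = rse e p' → EqC I a₀ e (exR F I J c p) (exR F I J c' p')

/-- the axioms for configurations -/
def T_CAX : Prop :=
  ∀ (τ σ : Sig) (N k L : ℕ) (F : Set (Str τ (Fin N))) (Al : Fin σ.m → Fin τ.m → Prop)
    (ε : Ty τ N (Fin k) → Ty τ N (Fin k)) (I : Finset (Fin k)) (a₀ : Ty τ N (Fin (k + k))),
    Hyp τ N F → 1 ≤ k → 1 ≤ L →
    CA (C := CC L F I a₀) rse (RPe F Al ε) none (fun e c c' => EqC I a₀ e c.1 c'.1)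
      (fun e c => dgC F ε e c.1) (fun e c => yC e c.1) (exC F I a₀) (fun l c => atC Al c.1 l)

/-- the axiom `d2` -/
def T_DD2 : Prop :=
  ∀ (τ : Sig) (N k L : ℕ) (F : Set (Str τ (Fin N))) (I : Finset (Fin k))
    (a₀ : Ty τ N (Fin (k + k))) (J h e : Finset (Fin k)) (c : Nm τ N k L) (p : Ty τ N (Fin k)),
    Hyp τ N F → 1 ≤ k → OkC F I a₀ c → Rl F p →
    (∀ i, rse e (rs (rdp c.1) (c.2.2.2 i)) = rse e p) →
    J ⊆ h → J ⊆ e → min (DC F I J (h ∩ e) c) (DC F I J e c + 1) ≤ DC F I J h (exR F I e c p)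

/-- the axioms for distances -/
def T_DAX : Prop :=
  ∀ (τ σ : Sig) (N k L : ℕ) (F : Set (Str τ (Fin N))) (Al : Fin σ.m → Fin τ.m → Prop)
    (ε : Ty τ N (Fin k) → Ty τ N (Fin k)) (I : Finset (Fin k)) (a₀ : Ty τ N (Fin (k + k))),
    Hyp τ N F → 1 ≤ k → 1 ≤ L →
    DA (C := CC L F I a₀) rse (RPe F Al ε) none (fun e c c' => EqC I a₀ e c.1 c'.1)
      (fun e c => dgC F ε e c.1) (fun e c => yC e c.1) (exC F I a₀) (Bd τ N)
      (fun J f c => DC F I J f c.1)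

/-- from the outputs of `T_ALG` to outputs on configurations -/
def T_BRG : Prop :=
  ∀ (τ σ : Sig) (N k L : ℕ) (F : Set (Str τ (Fin N))) (Al : Fin σ.m → Fin τ.m → Prop)
    (I : Finset (Fin k)) (a₀ : Ty τ N (Fin (k + k))) (Out : Nm τ N k L → Ty τ N (Fin k)),
    (∀ q, CfX F I a₀ q → Rl F (Out q) ∧ ∀ (l : Fin σ.m) (z : Fin (σ.ar l) → Fin k),
      (∀ c, hasl Al l (fun i => rdp q.1 (z i)) (q.2.2.2 c)) → hasl Al l z (Out q)) →
    (∀ q q' e, CfX F I a₀ q → CfX F I a₀ q' → EqX I a₀ e q q' →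
      rse e (Out q) = rse e (Out q')) →
    ∃ O : Nm τ N k L → Ty τ N (Fin k),
      (∀ c, OkC F I a₀ c → ∀ l, atC Al c l → RP F Al l (O c)) ∧
      ∀ e c c', OkC F I a₀ c → OkC F I a₀ c' → EqX I a₀ e c c' → rse e (O c) = rse e (O c')

/-! ### 3. Families -/

/-- facts about patterns -/
def T_UPF : Prop :=
  ∀ (τ : Sig) (N k : ℕ) (F : Set (Str τ (Fin N))) (I : Finset (Fin k)), Hyp τ N F → 1 ≤ k →
    (∀ P : Ty τ N (Fin k), rs (rdp I) (up P) = P) ∧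
    (∀ P : Ty τ N (Fin k), Rl F P → Rl F (up P)) ∧
    (∀ P P' : Ty τ N (Fin k), rse I P = rse I P' → ka I P = ka I P') ∧
    (∀ (e : Finset (Fin k)) (P P' : Ty τ N (Fin k)), I ⊆ e → rse e P = rse e P' →
      rse (gs I I e) (up P) = rse (gs I I e) (up P')) ∧
    ∀ (J : Type) (P : J → Ty τ N (Fin k)), (∀ i, Rl F (P i)) →
      (∀ e : So N k, ¬ I ⊂ e.1 → ∀ i i', rse e.1 (P i) = rse e.1 (P i')) →
      ∀ i i', rse I (P i) = rse I (P i')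

/-- configurations of six patterns -/
def T_SXF : Prop :=
  ∀ (τ : Sig) (N k L : ℕ) (F : Set (Str τ (Fin N))) (ε : Ty τ N (Fin k) → Ty τ N (Fin k))
    (I : Finset (Fin k)) (a₀ : Ty τ N (Fin (k + k))), Hyp τ N F → 1 ≤ k → 1 ≤ L →
    (∀ (r : Fin 3) (lb : Fin k → Rg L) (p : Fin 6 → Ty τ N (Fin k)), Six F ε I r lb p →
      Lab r lb → OkC F I (ka I (p 0)) (cf I r lb p)) ∧
    (∀ (r : Fin 3) (lb : Fin k → Rg L) (p : Fin 6 → Ty τ N (Fin k)) (e : Finset (Fin k)),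
      Six F ε I r lb p → (∀ i, rse e (p i) = rse e (p 0)) →
      dgC F ε e (cf I r lb p) ∧ yC e (cf I r lb p) = rse e (p 0)) ∧
    (∀ (r : Fin 3) (lb : Fin k → Rg L) (p p' : Fin 6 → Ty τ N (Fin k)) (e : Finset (Fin k)),
      I ⊆ e → (∀ i, rse e (p i) = rse e (p' i)) →
      EqC I a₀ e (cf I r lb p) (cf I r lb p')) ∧
    (∀ (r r' : Fin 3) (p : Fin 6 → Ty τ N (Fin k)) (e : Finset (Fin k)),
      EqC I a₀ e (cf I r (fun _ => (none : Rg L)) p) (cf I r' (fun _ => none) p)) ∧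
    (∀ (r r' : Fin 3) (P P' : Ty τ N (Fin k)) (e : Finset (Fin k)),
      EqC I a₀ e (cf I r (fun _ => (some none : Rg L)) (pat r P P'))
        (cf I r' (fun _ => some none) (pat r' P P'))) ∧
    (∀ (r : Fin 3) (lb lb' : Fin k → Rg L) (p : Fin 6 → Ty τ N (Fin k)) (e : Finset (Fin k)),
      (∀ v ∈ e, lb v = lb' v) → EqC I a₀ e (cf I r lb p) (cf I r lb' p)) ∧
    ∀ (r : Fin 3) (lb lb' : Fin k → Rg L) (p : Fin 6 → Ty τ N (Fin k)) (e : Finset (Fin k)),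
      (∀ v ∈ e, v ∉ I → lb v = lb' v) → EqX I a₀ e (cf I r lb p) (cf I r lb' p)

/-- the families of the labellings -/
def T_VXF : Prop :=
  ∀ (τ σ : Sig) (N k L : ℕ) (F : Set (Str τ (Fin N))) (Al : Fin σ.m → Fin τ.m → Prop)
    (ε : Ty τ N (Fin k) → Ty τ N (Fin k)), Hyp τ N F → 1 ≤ k → 1 ≤ L →
    ∀ (I : Finset (Fin k)) (O : Ty τ N (Fin (k + k)) → Nm τ N k L → Ty τ N (Fin k))
      (θ : Ty τ N (Fin (k + k)) → Nm τ N k L → Ty τ N (Fin k) → Ty τ N (Fin k)),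
    (∀ a₀ : Ty τ N (Fin (k + k)), (∃ P, Rl F P ∧ rse (cst I) P = a₀) →
      Pck F Al ε I a₀ (O a₀) (θ a₀)) →
    (∀ (r : Fin 3) (lb : Fin k → Rg L), Lab r lb → ∀ p, Six F ε I r lb p →
      (∀ e : So N k, ¬ I ⊂ e.1 → ∀ i, rse e.1 (p i) = rse e.1 (p 0)) → ∀ e : So N k,
      vX F ε I O θ r lb e (fun i => rse e.1 (p i)) = rse e.1 (oX I O θ r lb p)) ∧
    FmI (RRe F Al k ε) I (Fin 6) (vX F ε I O θ 0 (fun _ => none)) ∧
    ∀ (r : Fin 3) (lb : Fin k → Rg L), Lab r lb →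
      FmI (RRe F Al k ε) I (Fin 2) (fun e w => vX F ε I O θ r lb e (pat r (w 0) (w 1)))

/-- the ternary families of the corrections -/
def T_TXF : Prop :=
  ∀ (τ σ : Sig) (N k L : ℕ) (F : Set (Str τ (Fin N))) (Al : Fin σ.m → Fin τ.m → Prop)
    (ε : Ty τ N (Fin k) → Ty τ N (Fin k)), Hyp τ N F → 1 ≤ k → 1 ≤ L →
    Core rse (RPe F Al ε) none → ∀ m : ℕ, 1 ≤ m →
    (∀ η, Nt rse (RPe F Al ε) none η → ∀ P, RPe F Al ε none P → η^[m] P = P) →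
    ∀ (I : Finset (Fin k)) (O : Ty τ N (Fin (k + k)) → Nm τ N k L → Ty τ N (Fin k))
      (θ : Ty τ N (Fin (k + k)) → Nm τ N k L → Ty τ N (Fin k) → Ty τ N (Fin k)),
    (∀ a₀ : Ty τ N (Fin (k + k)), (∃ P, Rl F P ∧ rse (cst I) P = a₀) →
      Pck F Al ε I a₀ (O a₀) (θ a₀)) →
    (∀ (r : Fin 3) (lb : Fin k → Rg L), Lab r lb → ∀ p, Six F ε I r lb p →
      (∀ e : So N k, ¬ I ⊂ e.1 → ∀ i, rse e.1 (p i) = rse e.1 (p 0)) → ∀ e : So N k,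
      vX F ε I O θ r lb e (fun i => rse e.1 (p i)) = rse e.1 (oX I O θ r lb p)) →
    ∀ (r : Fin 3) (lb lb' : Fin k → Rg L), Lab r lb → Lab r lb' → (∀ v, v ∉ I → lb v = lb' v) →
    FmI (RRe F Al k ε) I (Fin 3) (tX F ε I θ m r lb lb') ∧
    (∀ e, EqS (RRe F Al k ε) none I e
      (fun e (w : Fin 2 → Ty τ N (Fin k)) => vX F ε I O θ r lb' e (pat r (w 0) (w 1)))
      (fun e w => tX F ε I θ m r lb lb' e
        ![w 0, w 1, vX F ε I O θ r lb e (pat r (w 0) (w 1))])) ∧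
    ∀ e, EqS (RRe F Al k ε) none I e (itT (tX F ε I θ m r lb lb') m) (fun e w => w 2)

/-- the chains, from outputs and corrections -/
def T_FMX : Prop :=
  ∀ (τ σ : Sig) (N k : ℕ) (F : Set (Str τ (Fin N))) (Al : Fin σ.m → Fin τ.m → Prop)
    (ε : Ty τ N (Fin k) → Ty τ N (Fin k)), Hyp τ N F → 1 ≤ k →
    Core rse (RPe F Al ε) none → ∀ I : Finset (Fin k),
    (∀ a₀ : Ty τ N (Fin (k + k)), (∃ P, Rl F P ∧ rse (cst I) P = a₀) →
      ∃ (O : Nm τ N k (N + 1) → Ty τ N (Fin k))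
        (θ : Nm τ N k (N + 1) → Ty τ N (Fin k) → Ty τ N (Fin k)), Pck F Al ε I a₀ O θ) →
    Chn3 (RRe F Al k ε) none I

/-! ### 4. Algebra -/

/-- the local sorts have a common new element -/
def T_JZ3 : Prop :=
  ∀ (X 𝓛 : Type) [Finite X] (N k : ℕ) (R : 𝓛 → (So N k → X) → Prop) (l₀ : 𝓛)
    (rd : So N k → So N k → X → X) (I : Finset (Fin k))
    (ι : (J : Type) → [Finite J] → [Nonempty J] → (So N k → (J → X) → X) → J),
    Bas R l₀ rd → Iot R l₀ I ι → Chn3 R l₀ I → (∃ e, Loc R l₀ I ι e) ∧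
      (∀ e, Loc R l₀ I ι e → I ⊂ e.1) ∧ ∃ v, v ∉ I ∧ ∀ e, Loc R l₀ I ι e → v ∈ e.1

/-- Olšák families of the core give Olšák families -/
def T_OLE : Prop :=
  ∀ (τ σ : Sig) (N k : ℕ) (F : Set (Str τ (Fin N))) (Al : Fin σ.m → Fin τ.m → Prop)
    (ε : Ty τ N (Fin k) → Ty τ N (Fin k)), Nt rse (RP F Al) none ε →
    (∀ P, Rl F P → ε (ε P) = ε P) →
    (∃ G : So N k → (Fin 6 → Ty τ N (Fin k)) → Ty τ N (Fin k),
      Fam (RRe F Al k ε) (Fin 6) G ∧ ∀ e x y r, G e (pat r x y) = G e (pat 0 x y)) →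
    ∃ G : So N k → (Fin 6 → Ty τ N (Fin k)) → Ty τ N (Fin k),
      Fam (RX F Al k) (Fin 6) G ∧ ∀ e x y r, G e (pat r x y) = G e (pat 0 x y)

end Pool.Agent.H76.GX
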